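import Pool.Agent.MP_a32717_an.PasGeo

/-! In the plane a convex function is dominated by an affine function plus caps
with the same boundary values. -/

set_option autoImplicit false

namespace Pool.Agent.Pas

open Set

variable {Ω : Set (ℝ × ℝ)} {S : Finset (ℝ × ℝ × ℝ)} {f : ℝ × ℝ → ℝ}

/-- The coefficients of `DD a b`. -/
def lam (a b : ℝ × ℝ) : ℝ × ℝ × ℝ :=
  (-(b.2 - a.2), b.1 - a.1, (b.2 - a.2) * a.1 - (b.1 - a.1) * a.2)

theorem ev_lam (a b p : ℝ × ℝ) : ev (lam a b) p = DD a b p := by simp only [ev, lam, DD]; ring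

theorem ev_add_smul (B Λ : ℝ × ℝ × ℝ) (c : ℝ) (p : ℝ × ℝ) :
    ev (B + c • Λ) p = ev B p + c * ev Λ p := by
  simp only [ev, Prod.fst_add, Prod.snd_add, Prod.smul_fst, Prod.smul_snd, smul_eq_mul]; ring

theorem ev_smul (Λ : ℝ × ℝ × ℝ) (c : ℝ) (p : ℝ × ℝ) : ev (c • Λ) p = c * ev Λ p := by
  simp only [ev, Prod.smul_fst, Prod.smul_snd, smul_eq_mul]; ring

theorem tilt {W : Set (ℝ × ℝ)} (hW : W.Finite) (B Λ : ℝ × ℝ × ℝ) (h0 : ∀ w ∈ W, ev B w ≤ f w)
    (h1 : ∃ w ∈ W, 0 < ev Λ w) : ∃ c : ℝ, 0 ≤ c ∧ ∃ q ∈ W, 0 < ev Λ q ∧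
      ev (B + c • Λ) q = f q ∧ ∀ w ∈ W, ev (B + c • Λ) w ≤ f w := by
  obtain ⟨q, ⟨hq, q0⟩, hm⟩ := exists_min_image (W ∩ {w | 0 < ev Λ w})
    (fun w => (f w - ev B w) / ev Λ w) (hW.inter_of_left _) h1
  rw [mem_ofPred_eq] at q0
  have c0 : 0 ≤ (f q - ev B q) / ev Λ q := div_nonneg (sub_nonneg.2 (h0 q hq)) q0.le
  refine ⟨_, c0, q, hq, q0, by rw [ev_add_smul, div_mul_cancel₀ _ q0.ne']; ring, fun w hw => ?_⟩
  rw [ev_add_smul]
  rcases lt_or_ge 0 (ev Λ w) with k | k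
  · have := (le_div_iff₀ k).1 (hm w ⟨hw, k⟩)
    linarith
  · linarith [h0 w hw, mul_nonpos_of_nonneg_of_nonpos c0 k]

theorem IsMx.tri_in (hf : IsMx S f) {B : ℝ × ℝ × ℝ} {a b q p : ℝ × ℝ} (h0 : 0 < DD a b q)
    (ga : f a ≤ ev B a) (gb : f b ≤ ev B b) (gq : f q ≤ ev B q) (h1 : DD q b p ≤ 0)
    (h2 : DD a q p ≤ 0) (h3 : 0 ≤ DD a b p) : f p ≤ ev B p := by
  obtain ⟨A, hA, e⟩ := (hf p).2
  have k := bary (A - B) a b q p
  simp only [ev_sub] at k
  have c1 := mul_nonneg (neg_nonneg.2 h1) (sub_nonneg.2 (((hf a).1 A hA).trans ga))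
  have c2 := mul_nonneg (neg_nonneg.2 h2) (sub_nonneg.2 (((hf b).1 A hA).trans gb))
  have c3 := mul_nonneg h3 (sub_nonneg.2 (((hf q).1 A hA).trans gq))
  exact le_of_mul_le_mul_left (by rw [← e]; linarith) h0

theorem on_line {u v p : ℝ × ℝ} {d g : ℝ} (d0 : d ≠ 0) (h1 : d * (p.1 - u.1) = g * (v.1 - u.1))
    (h2 : d * (p.2 - u.2) = g * (v.2 - u.2)) : p = u + (g / d) • (v - u) := by
  ext
  · simp only [Prod.fst_add, Prod.smul_fst, Prod.fst_sub, smul_eq_mul]; field_simp; linarith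
  · simp only [Prod.snd_add, Prod.smul_snd, Prod.snd_sub, smul_eq_mul]; field_simp; linarith

theorem Dom.tri_front (h : Dom Ω) (hf : IsMx S f) {B : ℝ × ℝ × ℝ} {a b q p : ℝ × ℝ}
    (ha : a ∈ closure Ω) (hb : b ∈ closure Ω) (hq : q ∈ closure Ω) (hp : p ∈ frontier Ω)
    (h0 : 0 < DD a b q) (ga : ev B a ≤ f a) (gb : ev B b ≤ f b) (gq : ev B q ≤ f q)
    (h1 : DD q b p ≤ 0) (h2 : DD a q p ≤ 0) (h3 : 0 ≤ DD a b p)
    (gQ : ∀ y ∈ QQ Ω S, 0 < DD a b y ∨ DD a b p = 0 → ev B y ≤ f y) : ev B p ≤ f p := by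
  have sm : -DD q b p + -DD a q p + DD a b p = DD a b q := by simp only [DD]; ring
  have b1 : DD a b q * p.1 = -DD q b p * a.1 + -DD a q p * b.1 + DD a b p * q.1 := by
    simp only [DD]; ring
  have b2 : DD a b q * p.2 = -DD q b p * a.2 + -DD a q p * b.2 + DD a b p * q.2 := by
    simp only [DD]; ring
  rcases h3.eq_or_lt with e | h3'
  · have ep : p = a + (-DD a q p / DD a b q) • (b - a) := on_line h0.ne'
      (by linear_combination b1 + a.1 * sm - (q.1 - a.1) * e)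
      (by linear_combination b2 + a.2 * sm - (q.2 - a.2) * e)
    rw [ep] at hp ⊢
    exact h.seg hf B (fun k => by simp [k, DD] at h0) ha hb (div_nonneg (by linarith) h0.le)
      ((div_le_one h0).2 (by linarith)) hp ga gb fun t _ m => gQ _ m (Or.inr e.symm)
  rcases h2.eq_or_lt with e | h2'
  · have ep : p = a + (DD a b p / DD a b q) • (q - a) := on_line h0.ne'
      (by linear_combination b1 + a.1 * sm - (b.1 - a.1) * e)
      (by linear_combination b2 + a.2 * sm - (b.2 - a.2) * e)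
    rw [ep] at hp ⊢
    refine h.seg hf B (fun k => by simp [k, DD] at h0) ha hq (div_nonneg h3 h0.le)
      ((div_le_one h0).2 (by linarith)) hp ga gq fun t t0 m => gQ _ m (Or.inl ?_)
    rw [← ev_lam, ev_line, ev_lam, ev_lam, show DD a b a = 0 by simp [DD]]
    linarith [mul_pos t0 h0]
  rcases h1.eq_or_lt with e | h1'
  · have ep : p = b + (DD a b p / DD a b q) • (q - b) := on_line h0.ne'
      (by linear_combination b1 + b.1 * sm - (a.1 - b.1) * e)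
      (by linear_combination b2 + b.2 * sm - (a.2 - b.2) * e)
    rw [ep] at hp ⊢
    refine h.seg hf B (fun k => by simp [k, DD, mul_comm] at h0) hb hq (div_nonneg h3 h0.le)
      ((div_le_one h0).2 (by linarith)) hp gb gq fun t t0 m => gQ _ m (Or.inl ?_)
    rw [← ev_lam, ev_line, ev_lam, ev_lam, show DD a b b = 0 by simp [DD, mul_comm]]
    linarith [mul_pos t0 h0]
  exfalso
  obtain ⟨A, a0, a1, a2⟩ := h.supp hp
  obtain ⟨z, hz⟩ := h.ne
  have k := bary A a b q p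
  have c1 := mul_nonneg (neg_pos.2 h1').le (a2 a ha)
  have c2 := mul_nonneg (neg_pos.2 h2').le (a2 b hb)
  have c3 := mul_nonneg h3 (a2 q hq)
  rw [a0, mul_zero] at k
  have e1 : ev A a = 0 := (mul_eq_zero.1 (by linarith : -DD q b p * ev A a = 0)).resolve_left
    (neg_pos.2 h1').ne'
  have e2 : ev A b = 0 := (mul_eq_zero.1 (by linarith : -DD a q p * ev A b = 0)).resolve_left
    (neg_pos.2 h2').ne'
  have e3 : ev A q = 0 := (mul_eq_zero.1 (by linarith : DD a b p * ev A q = 0)).resolve_left h3'.ne'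
  have k' := bary A a b q z
  rw [e1, e2, e3] at k'
  linarith [mul_pos h0 (a1 z hz)]

/-- `F` does the job on the cap cut off by the chord from `a` to `b`. -/
def Con (Ω : Set (ℝ × ℝ)) (f : ℝ × ℝ → ℝ) (B : ℝ × ℝ × ℝ) (a b : ℝ × ℝ) (F : ℝ × ℝ → ℝ) : Prop :=
  (∀ p ∈ closure Ω, DD a b p ≤ 0 → F p = 0) ∧
    (∀ p ∈ closure Ω, 0 < DD a b p → f p ≤ ev B p + F p) ∧
    ∀ p ∈ frontier Ω, 0 < DD a b p → ev B p + F p ≤ f p

theorem Dom.step (h : Dom Ω) (hf : IsMx S f) {B : ℝ × ℝ × ℝ} {a b q : ℝ × ℝ} {F1 F2 : ℝ × ℝ → ℝ}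
    (ha : a ∈ closure Ω) (hb : b ∈ closure Ω) (hq : q ∈ frontier Ω) (h0 : 0 < DD a b q)
    (ga : ev B a = f a) (gb : ev B b = f b) (gq : ev B q = f q) (c1 : Con Ω f B a q F1)
    (c2 : Con Ω f B q b F2) :
    (∀ p ∈ closure Ω, 0 ≤ DD a b p → f p ≤ ev B p + (F1 p + F2 p)) ∧
      ∀ p ∈ frontier Ω, 0 ≤ DD a b p →
        (∀ y ∈ QQ Ω S, 0 < DD a b y ∨ DD a b p = 0 → ev B y ≤ f y) →
        ev B p + (F1 p + F2 p) ≤ f p := by
  have nb : ∀ p ∈ closure Ω, 0 < DD a q p → DD q b p ≤ 0 := fun p hp k => not_lt.1 fun k' => by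
    have := h.tri1 (e := -1) hq hb ha hp hp (by simp only [DD] at h0 ⊢; linarith) (by linarith)
      (by simp only [DD] at k ⊢; linarith)
    linarith
  constructor
  · intro p hp k
    rcases lt_or_ge 0 (DD a q p) with k1 | k1
    · rw [c2.1 p hp (nb p hp k1), add_zero]; exact c1.2.1 p hp k1
    rw [c1.1 p hp k1, zero_add]
    rcases lt_or_ge 0 (DD q b p) with k2 | k2
    · exact c2.2.1 p hp k2
    · rw [c2.1 p hp k2, add_zero]; exact hf.tri_in h0 ga.ge gb.ge gq.ge k2 k1 k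
  · intro p hp' k gQ
    have hp := frontier_subset_closure hp'
    rcases lt_or_ge 0 (DD a q p) with k1 | k1
    · rw [c2.1 p hp (nb p hp k1), add_zero]; exact c1.2.2 p hp' k1
    rw [c1.1 p hp k1, zero_add]
    rcases lt_or_ge 0 (DD q b p) with k2 | k2
    · exact c2.2.2 p hp' k2
    · rw [c2.1 p hp k2, add_zero]
      exact h.tri_front hf ha hb (frontier_subset_closure hq) hp' h0 ga.le gb.le gq.le k2 k1 k gQ

theorem Dom.sub1 (h : Dom Ω) {a b q r p : ℝ × ℝ} (ha : a ∈ frontier Ω) (hb : b ∈ frontier Ω)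
    (hq : q ∈ closure Ω) (hr : r ∈ closure Ω) (hp : p ∈ closure Ω) (h1 : 0 < DD a b q)
    (h2 : DD a b r < 0) : (0 < DD a q p → 0 < DD a b p) ∧ (0 < DD q b p → 0 < DD a b p) := by
  constructor
  · intro k
    simpa using h.tri1 (e := 1) ha (frontier_subset_closure hb) hq hr hp (by linarith)
      (by linarith) (by linarith)
  · intro k
    have := h.tri1 (e := -1) hb (frontier_subset_closure ha) hq hr hp
      (by simp only [DD] at h1 ⊢; linarith) (by simp only [DD] at h2 ⊢; linarith)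
      (by simp only [DD] at k ⊢; linarith)
    simp only [DD] at this ⊢; linarith

variable {G : (ℝ × ℝ → ℝ) → Prop}

theorem Dom.base (h : Dom Ω) (hf : IsMx S f) (hcap : ∀ A, G fun p => max (ev A p) 0)
    {B : ℝ × ℝ × ℝ} {a b r : ℝ × ℝ} (ha : a ∈ closure Ω) (hb : b ∈ closure Ω) (h2 : DD a b r < 0)
    (ga : ev B a = f a) (gb : ev B b = f b) (gr : f r ≤ ev B r)
    (hQ : ∀ y ∈ QQ Ω S, ¬ 0 < DD a b y) : ∃ F, G F ∧ Con Ω f B a b F := by
  by_cases k : ∃ z ∈ Ω, 0 < DD a b z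
  swap
  · have k' : ∀ p ∈ closure Ω, ¬ 0 < DD a b p := fun p hp k' => k (by
      simpa only [ev_lam] using near_pos (D := lam a b) hp (by rwa [ev_lam]))
    exact ⟨_, hcap 0, fun p _ _ => by simp [ev], fun p hp c => (k' p hp c).elim,
      fun p hp c => (k' p (frontier_subset_closure hp) c).elim⟩
  obtain ⟨z, hz, z0⟩ := k
  obtain ⟨A, hA, h3⟩ := h.capaff hf (lam a b) (by simpa only [ev_lam] using hQ)
  have cl : ∀ p ∈ closure Ω, 0 ≤ DD a b p → f p = ev A p := fun p hp p0 => h3 p (by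
    refine closure_mono ?_ (segment_subset_closure_openSegment (right_mem_segment ℝ z p))
    rintro _ ⟨s, t, s0, t0, st, rfl⟩
    refine ⟨h.combo hz hp s0 t0.le st, ?_⟩
    have e : s = 1 - t := by linarith
    subst e
    rw [mem_ofPred_eq, ← line_eq, ev_line, ev_lam, ev_lam]
    exact add_pos_of_pos_of_nonneg (mul_pos s0 z0) (mul_nonneg t0.le p0))
  have ea := cl a ha (by simp [DD])
  have eb := cl b hb (by simp [DD, mul_comm])
  have c0 : 0 ≤ (ev A r - ev B r) / DD a b r :=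
    div_nonneg_of_nonpos (by linarith [(hf r).1 A hA]) h2.le
  have e : ∀ p, ev A p = ev B p + (ev A r - ev B r) / DD a b r * DD a b p := fun p => by
    have k := bary (A - B) a b r p
    simp only [ev_sub] at k
    rw [← ea, ← eb, ga, gb] at k
    have := h2.ne
    field_simp
    linarith
  refine ⟨_, hcap (((ev A r - ev B r) / DD a b r) • lam a b), fun p _ k => ?_, fun p hp k => ?_,
    fun p hp k => ?_⟩ <;> simp only [ev_smul, ev_lam]
  · exact max_eq_right (mul_nonpos_of_nonneg_of_nonpos c0 k)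
  · rw [max_eq_left (mul_nonneg c0 k.le), cl p hp k.le, ← e]
  · rw [max_eq_left (mul_nonneg c0 k.le), cl p (frontier_subset_closure hp) k.le, ← e]

theorem Dom.ind (h : Dom Ω) (hf : IsMx S f) (hcap : ∀ A, G fun p => max (ev A p) 0)
    (hadd : ∀ F F', G F → G F' → G fun p => F p + F' p) (n : ℕ) :
    ∀ (B : ℝ × ℝ × ℝ) (a b r : ℝ × ℝ), a ∈ frontier Ω → b ∈ frontier Ω → r ∈ closure Ω →
      DD a b r < 0 → ev B a = f a → ev B b = f b → f r ≤ ev B r →
      (∀ y ∈ QQ Ω S, 0 < DD a b y → ev B y ≤ f y) →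
      (QQ Ω S ∩ {y | 0 < DD a b y}).ncard = n → ∃ F, G F ∧ Con Ω f B a b F := by
  induction n using Nat.strong_induction_on with
  | _ n ih =>
  intro B a b r ha hb hr h2 ga gb gr gQ hn
  have ha' := frontier_subset_closure ha
  have hb' := frontier_subset_closure hb
  by_cases k : ∃ y ∈ QQ Ω S, 0 < DD a b y
  swap
  · exact h.base hf hcap ha' hb' h2 ga gb gr fun y hy c => k ⟨y, hy, c⟩
  have fin := (h.QQ_fin S).inter_of_left {y | 0 < DD a b y}
  obtain ⟨c, c0, q, ⟨hq, q0⟩, -, gq, gW⟩ := tilt fin B (lam a b) (fun w hw => gQ w hw.1 hw.2)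
    (let ⟨y, y1, y2⟩ := k; ⟨y, ⟨y1, y2⟩, by rwa [ev_lam]⟩)
  rw [mem_ofPred_eq] at q0
  have hq' := frontier_subset_closure hq.1
  have sub := fun p (hp : p ∈ closure Ω) => h.sub1 ha hb hq' hr hp q0 h2
  have ga' : ev (B + c • lam a b) a = f a := by simp [ev_add_smul, ev_lam, DD, ga]
  have gb' : ev (B + c • lam a b) b = f b := by simp [ev_add_smul, ev_lam, DD, gb, mul_comm]
  obtain ⟨F1, G1, c1⟩ := ih _ (hn ▸ ncard_lt_ncard ⟨fun y hy => ⟨hy.1,
    (sub y (frontier_subset_closure hy.1.1)).1 hy.2⟩, fun m => by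
      simpa [DD, mul_comm] using (m ⟨hq, q0⟩).2⟩ fin) (B + c • lam a b) a q b ha hq.1 hb'
    (by simp only [DD] at q0 ⊢; linarith) ga' gq gb'.ge
    (fun y hy m => gW y ⟨hy, (sub y (frontier_subset_closure hy.1)).1 m⟩) rfl
  obtain ⟨F2, G2, c2⟩ := ih _ (hn ▸ ncard_lt_ncard ⟨fun y hy => ⟨hy.1,
    (sub y (frontier_subset_closure hy.1.1)).2 hy.2⟩, fun m => by
      simpa [DD] using (m ⟨hq, q0⟩).2⟩ fin) (B + c • lam a b) q b a hq.1 hb ha'
    (by simp only [DD] at q0 ⊢; linarith) gq gb' ga'.ge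
    (fun y hy m => gW y ⟨hy, (sub y (frontier_subset_closure hy.1)).2 m⟩) rfl
  obtain ⟨s1, s2⟩ := h.step hf ha' hb' hq.1 q0 ga' gb' gq c1 c2
  refine ⟨_, hadd _ _ (hcap (c • lam a b)) (hadd _ _ G1 G2), fun p hp m => ?_, fun p hp m => ?_,
    fun p hp m => ?_⟩ <;> simp only [ev_smul, ev_lam]
  · rw [c1.1 p hp (not_lt.1 fun o => m.not_gt ((sub p hp).1 o)),
      c2.1 p hp (not_lt.1 fun o => m.not_gt ((sub p hp).2 o)),
      max_eq_right (mul_nonpos_of_nonneg_of_nonpos c0 m)]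
    simp
  · have := s1 p hp m.le
    rw [ev_add_smul, ev_lam] at this
    rw [max_eq_left (mul_nonneg c0 m.le)]; linarith
  · have := s2 p hp m.le fun y hy o => gW y ⟨hy, o.resolve_right m.ne'⟩
    rw [ev_add_smul, ev_lam] at this
    rw [max_eq_left (mul_nonneg c0 m.le)]; linarith

theorem Dom.start (h : Dom Ω) (hf : IsMx S f) : ∃ (B : ℝ × ℝ × ℝ) (a b q : ℝ × ℝ),
    a ∈ frontier Ω ∧ b ∈ frontier Ω ∧ q ∈ frontier Ω ∧ 0 < DD a b q ∧ ev B a = f a ∧
      ev B b = f b ∧ ev B q = f q ∧ ∀ y ∈ QQ Ω S, ev B y ≤ f y := by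
  obtain ⟨z, hz⟩ := h.ne
  obtain ⟨t1, p1, w1⟩ := h.ray hz (w := (1, 0)) (by simp)
  obtain ⟨t2, p2, w2⟩ := h.ray hz (w := (-1, 0)) (by simp)
  obtain ⟨t3, p3, w3⟩ := h.ray hz (w := (0, 1)) (by simp)
  set a := z + t1 • ((1 : ℝ), (0 : ℝ)) with ha
  set W := insert a (insert (z + t2 • ((-1 : ℝ), (0 : ℝ)))
    (insert (z + t3 • ((0 : ℝ), (1 : ℝ))) (QQ Ω S))) with hW
  have fin : W.Finite := (((h.QQ_fin S).insert _).insert _).insert _
  have fr : ∀ w ∈ W, w ∈ frontier Ω := by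
    rintro w (rfl | rfl | rfl | k)
    exacts [w1, w2, w3, k.1]
  obtain ⟨A, hA, e⟩ := (hf a).2
  obtain ⟨c, -, b, hb, b0, gb, gW⟩ := tilt (f := f) fin A (-1, 0, a.1) (fun w _ => (hf w).1 A hA)
    ⟨_, Or.inr (Or.inl rfl), by simp [ev, ha]; linarith⟩
  have ga : ev (A + c • ((-1 : ℝ), (0 : ℝ), a.1)) a = f a := by rw [ev_add_smul, e]; simp [ev]
  set B := A + c • ((-1 : ℝ), (0 : ℝ), a.1)
  have fin2 : ∀ a b : ℝ × ℝ, a ∈ W → b ∈ W → ev B a = f a → ev B b = f b →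
      (∃ w ∈ W, 0 < DD a b w) → ∃ (B : ℝ × ℝ × ℝ) (a b q : ℝ × ℝ),
      a ∈ frontier Ω ∧ b ∈ frontier Ω ∧ q ∈ frontier Ω ∧ 0 < DD a b q ∧ ev B a = f a ∧
      ev B b = f b ∧ ev B q = f q ∧ ∀ y ∈ QQ Ω S, ev B y ≤ f y := fun a b ma mb ga gb k => by
    obtain ⟨c', -, q, hq, q0, gq, gW'⟩ := tilt fin B (lam a b) gW (by simpa only [ev_lam] using k)
    exact ⟨_, a, b, q, fr a ma, fr b mb, fr q hq, by rwa [ev_lam] at q0,
      by simp [ev_add_smul, ev_lam, DD, ga], by simp [ev_add_smul, ev_lam, DD, gb, mul_comm], gq,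
      fun y hy => gW' y (Or.inr (Or.inr (Or.inr hy)))⟩
  by_cases k : ∃ w ∈ W, 0 < DD a b w
  · exact fin2 a b (Or.inl rfl) hb ga gb k
  refine fin2 b a hb (Or.inl rfl) gb ga (by_contra fun k' => ?_)
  push Not at k k'
  have k2 := k _ (Or.inr (Or.inl rfl))
  have k3 := k _ (Or.inr (Or.inr (Or.inl rfl)))
  have k4 := k' _ (Or.inr (Or.inl rfl))
  have k5 := k' _ (Or.inr (Or.inr (Or.inl rfl)))
  simp only [DD, ev, ha, Prod.fst_add, Prod.snd_add, Prod.smul_fst, Prod.smul_snd, smul_eq_mul,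
    mul_one, mul_zero, add_zero] at k2 k3 k4 k5 b0
  have e1 : (b.2 - z.2) * (t1 + t2) = 0 := by linarith
  have e2 : b.2 - z.2 = 0 := (mul_eq_zero.1 e1).resolve_right (by linarith)
  have e3 : (b.1 - (z.1 + t1)) * t3 = 0 := by
    rw [sub_eq_zero.1 e2] at k3 k5; linarith
  rcases mul_eq_zero.1 e3 with o | o <;> linarith

theorem Dom.env (h : Dom Ω) (hf : IsMx S f) (hcap : ∀ A, G fun p => max (ev A p) 0)
    (hadd : ∀ F F', G F → G F' → G fun p => F p + F' p) (haff : ∀ A, G (ev A)) :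
    ∃ F, G F ∧ (∀ p ∈ closure Ω, f p ≤ F p) ∧ ∀ p ∈ frontier Ω, F p ≤ f p := by
  obtain ⟨B, a, b, q, ha, hb, hq, q0, ga, gb, gq, gQ⟩ := h.start hf
  have ha' := frontier_subset_closure ha
  have hb' := frontier_subset_closure hb
  have hq' := frontier_subset_closure hq
  obtain ⟨F1, G1, c1⟩ := h.ind hf hcap hadd _ B a q b ha hq hb'
    (by simp only [DD] at q0 ⊢; linarith) ga gq gb.ge (fun y hy _ => gQ y hy) rfl
  obtain ⟨F2, G2, c2⟩ := h.ind hf hcap hadd _ B q b a hq hb ha'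
    (by simp only [DD] at q0 ⊢; linarith) gq gb ga.ge (fun y hy _ => gQ y hy) rfl
  obtain ⟨F3, G3, c3⟩ := h.ind hf hcap hadd _ B b a q hb ha hq'
    (by simp only [DD] at q0 ⊢; linarith) gb ga gq.ge (fun y hy _ => gQ y hy) rfl
  obtain ⟨s1, s2⟩ := h.step hf ha' hb' hq q0 ga gb gq c1 c2
  have sw : ∀ p, DD b a p = -DD a b p := fun p => by simp only [DD]; ring
  have z12 : ∀ p ∈ closure Ω, DD a b p < 0 → F1 p + F2 p = 0 := fun p hp m => by
    have sub := h.sub1 ha hb hq' hp hp q0 m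
    rw [c1.1 p hp (not_lt.1 fun o => m.not_gt (sub.1 o)),
      c2.1 p hp (not_lt.1 fun o => m.not_gt (sub.2 o)), add_zero]
  refine ⟨_, hadd _ _ (haff B) (hadd _ _ (hadd _ _ G1 G2) G3), fun p hp => ?_, fun p hp => ?_⟩
  · rcases lt_or_ge (DD a b p) 0 with m | m
    · rw [z12 p hp m, zero_add]; exact c3.2.1 p hp (by rw [sw]; linarith)
    · rw [c3.1 p hp (by rw [sw]; linarith), add_zero]; exact s1 p hp m
  · have hp' := frontier_subset_closure hp
    rcases lt_or_ge (DD a b p) 0 with m | m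
    · rw [z12 p hp' m, zero_add]; exact c3.2.2 p hp (by rw [sw]; linarith)
    · rw [c3.1 p hp' (by rw [sw]; linarith), add_zero]; exact s2 p hp m fun y hy _ => gQ y hy

end Pool.Agent.Pas
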