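import Pool.Agent.MP_a32717_an.PasAvg
import Pool.Agent.MP_a32717_an.PasEnv

/-! The planar theorem. -/

set_option autoImplicit false

namespace Pool.Agent.Pas

open MeasureTheory Set
open scoped MeasureTheory

variable {Ω : Set (ℝ × ℝ)} {ρ : Measure (ℝ × ℝ)}

theorem Dom.cv_cl (h : Dom Ω) {f : ℝ × ℝ → ℝ} (hf : ContinuousOn f (closure Ω))
    (hc : ConvexOn ℝ Ω f) : ConvexOn ℝ (closure Ω) f := by
  refine ⟨h.cv.closure, fun x hx y hy a b ha hb hab => ?_⟩
  refine le_on_closure (s := Ω ×ˢ Ω) (f := fun q => f (a • q.1 + b • q.2))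
    (g := fun q => a • f q.1 + b • f q.2) (fun q hq => hc.2 hq.1 hq.2 ha hb hab) ?_ ?_
    (x := (x, y)) (by rw [closure_prod_eq]; exact ⟨hx, hy⟩) <;> rw [closure_prod_eq]
  · exact hf.comp (by fun_prop) fun q hq => h.cv.closure hq.1 hq.2 ha hb hab
  · exact ((hf.comp continuousOn_fst fun q hq => hq.1).const_smul a).add
      ((hf.comp continuousOn_snd fun q hq => hq.2).const_smul b)

theorem Dom.approx (h : Dom Ω) {f : ℝ × ℝ → ℝ} (hf : ContinuousOn f (closure Ω))
    (hc : ConvexOn ℝ Ω f) {ε : ℝ} (hε : 0 < ε) : ∃ (S : Finset (ℝ × ℝ × ℝ)) (g : ℝ × ℝ → ℝ),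
      IsMx S g ∧ ∀ p ∈ closure Ω, g p ≤ f p ∧ f p ≤ g p + ε := by
  classical
  have k : ∀ x : ℝ × ℝ, ∃ A : ℝ × ℝ × ℝ, x ∈ closure Ω →
      (∀ p ∈ closure Ω, ev A p ≤ f p) ∧ f x < ev A x + ε := fun x => by
    by_cases hx : x ∈ closure Ω
    swap
    · exact ⟨0, fun c => (hx c).elim⟩
    obtain ⟨l, c, h1, h2⟩ := ConvexOn.exists_affine_le_of_lt (𝕜 := ℝ) hx
      (show f x - ε / 2 < f x by linarith) isClosed_closure hf.lowerSemicontinuousOn (h.cv_cl hf hc)
    have e : ∀ p : ℝ × ℝ, ev (l (1, 0), l (0, 1), c) p = l p + c := fun p => by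
      have : p = p.1 • ((1 : ℝ), (0 : ℝ)) + p.2 • ((0 : ℝ), (1 : ℝ)) := by ext <;> simp
      conv_rhs => rw [this, map_add, map_smul, map_smul]
      simp only [ev, smul_eq_mul]; ring
    refine ⟨(l (1, 0), l (0, 1), c), fun _ => ⟨fun p hp => ?_, ?_⟩⟩
    · rw [e]; exact h1 ⟨p, hp⟩
    · rw [e]
      have : l x + c = f x - ε / 2 := h2
      linarith
  choose A hA using k
  obtain ⟨t, t1, t2⟩ := h.bd.isCompact_closure.elim_nhdsWithin_subcover
    (fun x => {p | f p < ev (A x) p + ε}) fun x hx =>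
      (hf x hx).eventually_lt (((ev_cont (A x)).add continuous_const).continuousWithinAt)
        (hA x hx).2
  have ne : (t.image A).Nonempty := by
    obtain ⟨z, hz⟩ := h.ne
    obtain ⟨x, hx, -⟩ := mem_iUnion₂.1 (t2 (subset_closure hz))
    exact ⟨_, Finset.mem_image_of_mem A hx⟩
  refine ⟨t.image A, fun p => (t.image A).sup' ne fun B => ev B p, fun p =>
    ⟨fun B hB => Finset.le_sup' (fun B => ev B p) hB, ?_⟩, fun p hp => ⟨?_, ?_⟩⟩
  · obtain ⟨B, hB, e⟩ := Finset.exists_mem_eq_sup' ne fun B => ev B p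
    exact ⟨B, hB, e.symm⟩
  · refine Finset.sup'_le _ _ fun B hB => ?_
    obtain ⟨x, hx, rfl⟩ := Finset.mem_image.1 hB
    exact (hA x (t1 x hx)).1 p hp
  · obtain ⟨x, hx, m⟩ := mem_iUnion₂.1 (t2 hp)
    have := Finset.le_sup' (fun B => ev B p) (Finset.mem_image_of_mem A hx)
    linarith [m.out]

theorem Dom.plane (h : Dom Ω) (hρ : IsLen ρ) (hc : Cen ρ Ω) {f : ℝ × ℝ → ℝ}
    (hf : ContinuousOn f (closure Ω)) (hv : ConvexOn ℝ Ω f) : Good ρ Ω f := by
  refine ⟨hf, le_of_forall_pos_le_add fun ε hε => ?_⟩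
  have A0 := h.A_pos
  have L0 := h.L_pos hρ
  obtain ⟨S, g, hg, h1⟩ := h.approx hf hv (div_pos hε (mul_pos A0 L0))
  obtain ⟨F, hF, h2, h3⟩ := h.env (G := Good ρ Ω) hg (fun A => h.capg hρ hc _ _ _)
    (fun _ _ => h.add hρ) (fun A => h.aff hρ hc _ _ _)
  have k1 : ∫ p in Ω, f p ≤ ∫ p in Ω, (F p + ε / (volume.real Ω * ρ.real (frontier Ω))) :=
    setIntegral_mono_on (h.intA hf) (h.intA (hF.1.add continuousOn_const)) h.op.measurableSet
      fun p hp => by linarith [(h1 p (subset_closure hp)).2, h2 p (subset_closure hp)]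
  have k2 : ∫ p in frontier Ω, F p ∂ρ ≤ ∫ p in frontier Ω, f p ∂ρ :=
    setIntegral_mono_on (h.intL hρ hF.1) (h.intL hρ hf) isClosed_frontier.measurableSet
      fun p hp => (h3 p hp).trans (h1 p (frontier_subset_closure hp)).1
  rw [integral_add (h.intA hF.1) (h.intA continuousOn_const), setIntegral_const, smul_eq_mul] at k1
  have e : ρ.real (frontier Ω) * (volume.real Ω * (ε / (volume.real Ω * ρ.real (frontier Ω)))) =
      ε := by field_simp
  linarith [mul_le_mul_of_nonneg_left k1 L0.le, mul_le_mul_of_nonneg_left k2 A0.le, hF.2]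

/-- Coordinates of the Euclidean plane. -/
noncomputable def io : EuclideanSpace ℝ (Fin 2) ≃L[ℝ] ℝ × ℝ :=
  (EuclideanSpace.equiv (Fin 2) ℝ).trans (ContinuousLinearEquiv.finTwoArrow ℝ ℝ)

theorem io_apply (z : EuclideanSpace ℝ (Fin 2)) : io z = (z 0, z 1) := rfl

theorem io_symm0 (p : ℝ × ℝ) : io.symm p 0 = p.1 := rfl

theorem io_symm1 (p : ℝ × ℝ) : io.symm p 1 = p.2 := rfl

/-- The same as a measurable equivalence. -/
noncomputable def ioM : EuclideanSpace ℝ (Fin 2) ≃ᵐ ℝ × ℝ := io.toHomeomorph.toMeasurableEquiv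

theorem io_vol : MeasurePreserving ioM volume volume :=
  (volume_preserving_finTwoArrow ℝ).comp (PiLp.volume_preserving_ofLp (Fin 2))

theorem isLen : IsLen ((μH[1] : Measure (EuclideanSpace ℝ (Fin 2))).map ioM) where
  low := fun S c d hcd => by
    have l : LipschitzWith 1 fun z : EuclideanSpace ℝ (Fin 2) => c * z 0 + d * z 1 :=
      LipschitzWith.mk_one fun x y => by
        rw [Real.dist_eq, EuclideanSpace.dist_eq, Fin.sum_univ_two, Real.dist_eq, Real.dist_eq,
          sq_abs, sq_abs]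
        refine Real.abs_le_sqrt ?_
        nlinarith [sq_nonneg (c * (x 1 - y 1) - d * (x 0 - y 0)), mul_nonneg (sub_nonneg.2 hcd)
          (add_nonneg (sq_nonneg (x 0 - y 0)) (sq_nonneg (x 1 - y 1)))]
    have k := l.hausdorffMeasure_image_le zero_le_one (ioM ⁻¹' S)
    rw [hausdorffMeasure_real, ENNReal.coe_one, ENNReal.one_rpow, one_mul] at k
    rw [ioM.map_apply]
    refine le_trans (measure_mono ?_) k
    rintro _ ⟨p, hp, rfl⟩
    exact ⟨ioM.symm p, by simpa using hp, rfl⟩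
  up := fun S τ hτ => by
    classical
    set Γ : ℝ → EuclideanSpace ℝ (Fin 2) := fun u =>
      if k : ∃ p ∈ S, τ p = u then io.symm k.choose else 0 with hΓ
    have sp : ∀ u ∈ τ '' S, ∃ p ∈ S, τ p = u ∧ Γ u = io.symm p := fun u k =>
      ⟨_, k.choose_spec.1, k.choose_spec.2, dif_pos k⟩
    have l : LipschitzOnWith 1 Γ (τ '' S) := LipschitzOnWith.mk_one fun u hu v hv => by
      obtain ⟨p, p1, p2, p3⟩ := sp u hu
      obtain ⟨q, q1, q2, q3⟩ := sp v hv
      rw [p3, q3, ← p2, ← q2, EuclideanSpace.dist_eq, Fin.sum_univ_two, Real.dist_eq, Real.dist_eq,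
        Real.dist_eq, sq_abs, sq_abs, ← Real.sqrt_sq_eq_abs]
      exact Real.sqrt_le_sqrt (hτ p p1 q q1)
    have k := l.hausdorffMeasure_image_le zero_le_one
    rw [hausdorffMeasure_real, ENNReal.coe_one, ENNReal.one_rpow, one_mul] at k
    rw [ioM.map_apply]
    refine le_trans (measure_mono fun z hz => ?_) k
    obtain ⟨p, p1, p2, p3⟩ := sp _ ⟨_, hz, rfl⟩
    refine ⟨_, ⟨_, hz, rfl⟩, ?_⟩
    have := hτ p p1 _ hz
    rw [p2, sub_self] at this
    have e : p = ioM z := Prod.ext (by nlinarith [sq_nonneg (p.2 - (ioM z).2)])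
      (by nlinarith [sq_nonneg (p.1 - (ioM z).1)])
    rw [p3, e]
    exact io.symm_apply_apply z

theorem plane (Ω : Set (EuclideanSpace ℝ (Fin 2))) (ho : IsOpen Ω) (hc : Convex ℝ Ω)
    (hb : Bornology.IsBounded Ω) (hn : Ω.Nonempty)
    (hg : ⨍ x in Ω, x = ⨍ x in frontier Ω, x ∂μH[1]) (f : EuclideanSpace ℝ (Fin 2) → ℝ)
    (hf : ContinuousOn f (closure Ω)) (hv : ConvexOn ℝ Ω f) :
    ⨍ x in Ω, f x ≤ ⨍ x in frontier Ω, f x ∂μH[1] := by
  set ρ := (μH[1] : Measure (EuclideanSpace ℝ (Fin 2))).map ioM with hρ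
  have m1 : MeasurePreserving ioM.symm volume volume := io_vol.symm ioM
  have m2 : MeasurePreserving ioM.symm ρ μH[1] := (ioM.measurable.measurePreserving _).symm ioM
  have h : Dom (ioM.symm ⁻¹' Ω) :=
    ⟨ho.preimage io.symm.continuous, hc.linear_preimage (io.symm : (ℝ × ℝ) →ₗ[ℝ] _),
      io.symm.antilipschitz.isBounded_preimage hb, hn.preimage io.symm.surjective⟩
  have fr : frontier (ioM.symm ⁻¹' Ω) = ioM.symm ⁻¹' frontier Ω :=
    (io.symm.toHomeomorph.preimage_frontier Ω).symm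
  have cl : closure (ioM.symm ⁻¹' Ω) = ioM.symm ⁻¹' closure Ω :=
    (io.symm.toHomeomorph.preimage_closure Ω).symm
  have eA : volume (ioM.symm ⁻¹' Ω) = volume Ω := m1.measure_preimage_equiv Ω
  have eL : ρ (frontier (ioM.symm ⁻¹' Ω)) = μH[1] (frontier Ω) := by
    rw [fr]; exact m2.measure_preimage_equiv _
  have iA : ∀ g : EuclideanSpace ℝ (Fin 2) → ℝ,
      ∫ p in ioM.symm ⁻¹' Ω, g (ioM.symm p) = ∫ x in Ω, g x := fun g =>
    m1.setIntegral_preimage_emb ioM.symm.measurableEmbedding g Ω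
  have iL : ∀ g : EuclideanSpace ℝ (Fin 2) → ℝ, ∫ p in frontier (ioM.symm ⁻¹' Ω),
      g (ioM.symm p) ∂ρ = ∫ x in frontier Ω, g x ∂μH[1] := fun g => by
    rw [fr]; exact m2.setIntegral_preimage_emb ioM.symm.measurableEmbedding g _
  have A0 := h.A_pos
  have L0 := h.L_pos isLen
  have rA : volume.real (ioM.symm ⁻¹' Ω) = volume.real Ω := congrArg ENNReal.toReal eA
  have rL : ρ.real (frontier (ioM.symm ⁻¹' Ω)) = (μH[1] : Measure _).real (frontier Ω) :=
    congrArg ENNReal.toReal eL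
  rw [← hρ, rL] at L0
  rw [rA] at A0
  have j1 : IntegrableOn (fun x : EuclideanSpace ℝ (Fin 2) => x) Ω volume :=
    continuousOn_id.integrableOn_of_subset_isCompact hb.isCompact_closure ho.measurableSet
      subset_closure (eA ▸ h.vol_fin)
  have j2 : IntegrableOn (fun x : EuclideanSpace ℝ (Fin 2) => x) (frontier Ω) μH[1] :=
    continuousOn_id.integrableOn_of_subset_isCompact hb.isCompact_closure
      isClosed_frontier.measurableSet frontier_subset_closure (eL ▸ h.len_fin isLen)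
  have co : ∀ i : Fin 2, (μH[1] : Measure _).real (frontier Ω) * ∫ x in Ω, x i =
      volume.real Ω * ∫ x in frontier Ω, x i ∂μH[1] := fun i => by
    have k := congrArg (EuclideanSpace.proj (𝕜 := ℝ) i) hg
    rw [setAverage_eq, setAverage_eq, map_smul, map_smul,
      ← ContinuousLinearMap.integral_comp_comm _ j1, ← ContinuousLinearMap.integral_comp_comm _ j2,
      smul_eq_mul, smul_eq_mul] at k
    simp only [EuclideanSpace.coe_proj] at k
    field_simp at k
    linarith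
  have cen : Cen ρ (ioM.symm ⁻¹' Ω) := by
    constructor
    · rw [rA, rL]; exact (iA fun x => x 0) ▸ (iL fun x => x 0) ▸ co 0
    · rw [rA, rL]; exact (iA fun x => x 1) ▸ (iL fun x => x 1) ▸ co 1
  have k := (h.plane isLen cen (f := fun p => f (ioM.symm p))
    (by rw [cl]; exact hf.comp io.symm.continuous.continuousOn fun p hp => hp)
    (hv.comp_linearMap (io.symm : (ℝ × ℝ) →ₗ[ℝ] _))).2
  rw [← hρ, rA, rL, iA, iL] at k
  rw [setAverage_eq, setAverage_eq, smul_eq_mul, smul_eq_mul, inv_mul_eq_div, inv_mul_eq_div,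
    div_le_div_iff₀ A0 L0]
  linarith

end Pool.Agent.Pas
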