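import Pool.Agent.MP_a32717_an.PasCross

/-! The inequality of means for affine functions and their positive parts. -/

set_option autoImplicit false

namespace Pool.Agent.Pas

open MeasureTheory Set

variable {Ω : Set (ℝ × ℝ)} {ρ : Measure (ℝ × ℝ)}

theorem Dom.intA (h : Dom Ω) {f : ℝ × ℝ → ℝ} (hf : ContinuousOn f (closure Ω)) :
    IntegrableOn f Ω volume :=
  hf.integrableOn_of_subset_isCompact h.bd.isCompact_closure h.op.measurableSet subset_closure
    h.vol_fin

theorem Dom.intL (h : Dom Ω) (hρ : IsLen ρ) {f : ℝ × ℝ → ℝ} (hf : ContinuousOn f (closure Ω)) :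
    IntegrableOn f (frontier Ω) ρ :=
  hf.integrableOn_of_subset_isCompact h.bd.isCompact_closure isClosed_frontier.measurableSet
    frontier_subset_closure (h.len_fin hρ)

theorem Dom.A_pos (h : Dom Ω) : 0 < volume.real Ω := ENNReal.toReal_pos h.vol_pos h.vol_fin

theorem Dom.L_pos (h : Dom Ω) (hρ : IsLen ρ) : 0 < ρ.real (frontier Ω) :=
  ENNReal.toReal_pos (h.len_pos hρ) (h.len_fin hρ)

/-- The inequality of means holds for `F`. -/
def Good (ρ : Measure (ℝ × ℝ)) (Ω : Set (ℝ × ℝ)) (F : ℝ × ℝ → ℝ) : Prop :=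
  ContinuousOn F (closure Ω) ∧
    ρ.real (frontier Ω) * ∫ p in Ω, F p ≤ volume.real Ω * ∫ p in frontier Ω, F p ∂ρ

theorem Dom.add (h : Dom Ω) (hρ : IsLen ρ) {F G : ℝ × ℝ → ℝ} (hF : Good ρ Ω F) (hG : Good ρ Ω G) :
    Good ρ Ω fun p => F p + G p := by
  refine ⟨hF.1.add hG.1, ?_⟩
  rw [integral_add (h.intA hF.1) (h.intA hG.1), integral_add (h.intL hρ hF.1) (h.intL hρ hG.1)]
  linarith [hF.2, hG.2]

theorem Good.mul {F : ℝ × ℝ → ℝ} (hF : Good ρ Ω F) {c : ℝ} (hc : 0 ≤ c) :
    Good ρ Ω fun p => c * F p := by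
  refine ⟨continuousOn_const.mul hF.1, ?_⟩
  rw [integral_const_mul, integral_const_mul]
  linarith [mul_le_mul_of_nonneg_left hF.2 hc]

/-- Equal centroids. -/
def Cen (ρ : Measure (ℝ × ℝ)) (Ω : Set (ℝ × ℝ)) : Prop :=
  ρ.real (frontier Ω) * ∫ p in Ω, p.1 = volume.real Ω * ∫ p in frontier Ω, p.1 ∂ρ ∧
    ρ.real (frontier Ω) * ∫ p in Ω, p.2 = volume.real Ω * ∫ p in frontier Ω, p.2 ∂ρ

theorem Dom.aff (h : Dom Ω) (hρ : IsLen ρ) (hc : Cen ρ Ω) (c d e : ℝ) :
    Good ρ Ω fun p => c * p.1 + d * p.2 + e := by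
  refine ⟨by fun_prop, le_of_eq ?_⟩
  rw [integral_add (h.intA (by fun_prop)) (h.intA (by fun_prop)),
    integral_add (h.intA (by fun_prop)) (h.intA (by fun_prop)),
    integral_add (h.intL hρ (by fun_prop)) (h.intL hρ (by fun_prop)),
    integral_add (h.intL hρ (by fun_prop)) (h.intL hρ (by fun_prop))]
  simp only [integral_const_mul, setIntegral_const, smul_eq_mul]
  linear_combination c * hc.1 + d * hc.2

theorem Dom.layer (h : Dom Ω) (hρ : IsLen ρ) {g : ℝ × ℝ → ℝ} (hg : Continuous g)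
    (g0 : ∀ p, 0 ≤ g p) (k : ∀ t : ℝ, 0 < t → volume.real (Ω ∩ {p | t < g p}) * ρ.real (frontier Ω)
      ≤ ρ.real (frontier Ω ∩ {p | t < g p}) * volume.real Ω) : Good ρ Ω g := by
  refine ⟨hg.continuousOn, ?_⟩
  have m : ∀ t : ℝ, MeasurableSet {p | t < g p} := fun t =>
    (isOpen_lt continuous_const hg).measurableSet
  have k1 : ∫⁻ p, ENNReal.ofReal (g p) ∂(ρ (frontier Ω) • volume.restrict Ω) ≤
      ∫⁻ p, ENNReal.ofReal (g p) ∂(volume Ω • ρ.restrict (frontier Ω)) := by
    rw [lintegral_eq_lintegral_meas_lt _ (Filter.Eventually.of_forall g0)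
      hg.measurable.aemeasurable, lintegral_eq_lintegral_meas_lt _
      (Filter.Eventually.of_forall g0) hg.measurable.aemeasurable]
    refine setLIntegral_mono' measurableSet_Ioi fun t ht => ?_
    have f1 : volume (Ω ∩ {p | t < g p}) ≠ ⊤ :=
      ne_top_of_le_ne_top h.vol_fin (measure_mono inter_subset_left)
    have f2 : ρ (frontier Ω ∩ {p | t < g p}) ≠ ⊤ :=
      ne_top_of_le_ne_top (h.len_fin hρ) (measure_mono inter_subset_left)
    rw [Measure.smul_apply, Measure.smul_apply, Measure.restrict_apply (m t),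
      Measure.restrict_apply (m t), smul_eq_mul, smul_eq_mul, inter_comm _ Ω,
      inter_comm _ (frontier Ω), ← ENNReal.toReal_le_toReal (ENNReal.mul_ne_top (h.len_fin hρ) f1)
        (ENNReal.mul_ne_top h.vol_fin f2), ENNReal.toReal_mul, ENNReal.toReal_mul]
    have := k t ht
    simp only [Measure.real] at this
    linarith
  rw [lintegral_smul_measure, lintegral_smul_measure, ← ofReal_integral_eq_lintegral_ofReal
    (h.intA hg.continuousOn) (Filter.Eventually.of_forall g0),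
    ← ofReal_integral_eq_lintegral_ofReal (h.intL hρ hg.continuousOn)
      (Filter.Eventually.of_forall g0), smul_eq_mul, smul_eq_mul] at k1
  have k2 := ENNReal.toReal_mono (ENNReal.mul_ne_top h.vol_fin ENNReal.ofReal_ne_top) k1
  rwa [ENNReal.toReal_mul, ENNReal.toReal_mul, ENNReal.toReal_ofReal (integral_nonneg g0),
    ENNReal.toReal_ofReal (integral_nonneg g0)] at k2

theorem Dom.cap1 (h : Dom Ω) (hρ : IsLen ρ) (hc : Cen ρ Ω) {c d : ℝ} (u : c ^ 2 + d ^ 2 = 1)
    (s : ℝ) : Good ρ Ω fun p => max (c * p.1 + d * p.2 - s) 0 := by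
  by_cases k : ∀ t : ℝ, 0 < t → volume.real (Ω ∩ {p | s + t < c * p.1 + d * p.2}) *
      ρ.real (frontier Ω) ≤ ρ.real (frontier Ω ∩ {p | s + t < c * p.1 + d * p.2}) * volume.real Ω
  · refine h.layer hρ (by fun_prop) (fun _ => le_max_right _ _) fun t ht => ?_
    have e : {p : ℝ × ℝ | t < max (c * p.1 + d * p.2 - s) 0} = {p | s + t < c * p.1 + d * p.2} := by
      ext p
      simp only [mem_ofPred_eq, lt_max_iff, ht.not_gt, or_false]
      exact lt_sub_iff_add_lt'
    rw [e]; exact k t ht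
  · push Not at k
    obtain ⟨t2, t0, k2⟩ := k
    have g1 : Good ρ Ω fun p => max (s - (c * p.1 + d * p.2)) 0 := by
      refine h.layer hρ (by fun_prop) (fun _ => le_max_right _ _) fun t ht => ?_
      have e : {p : ℝ × ℝ | t < max (s - (c * p.1 + d * p.2)) 0} =
          {p | c * p.1 + d * p.2 < s - t} := by
        ext p
        simp only [mem_ofPred_eq, lt_max_iff, ht.not_gt, or_false]
        exact lt_sub_comm
      rw [e]
      by_contra k1
      exact h.cross hρ u (s1 := s - t) (s2 := s + t2) (by linarith) (not_le.1 k1) k2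
    have g2 := h.add hρ (h.aff hρ hc c d (-s)) g1
    have e : (fun p : ℝ × ℝ => max (c * p.1 + d * p.2 - s) 0) =
        fun p => c * p.1 + d * p.2 + -s + max (s - (c * p.1 + d * p.2)) 0 := by
      funext p
      rcases le_total (c * p.1 + d * p.2) s with b | b
      · rw [max_eq_right (by linarith), max_eq_left (by linarith)]; ring
      · rw [max_eq_left (by linarith), max_eq_right (by linarith)]; ring
    rwa [e]

theorem Dom.capg (h : Dom Ω) (hρ : IsLen ρ) (hc : Cen ρ Ω) (c d e : ℝ) :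
    Good ρ Ω fun p => max (c * p.1 + d * p.2 + e) 0 := by
  have r0 : 0 ≤ c ^ 2 + d ^ 2 := by positivity
  rcases r0.eq_or_lt with z | z
  · have c0 : c = 0 := by nlinarith
    have d0 : d = 0 := by nlinarith
    have := h.aff hρ hc 0 0 (max e 0)
    simpa [c0, d0] using this
  · obtain ⟨r, r1, r2⟩ : ∃ r : ℝ, 0 < r ∧ r ^ 2 = c ^ 2 + d ^ 2 :=
      ⟨_, Real.sqrt_pos.2 z, Real.sq_sqrt r0⟩
    have := (h.cap1 hρ hc (c := c / r) (d := d / r) (by field_simp; linarith) (-e / r)).mul r1.le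
    have e1 : (fun p : ℝ × ℝ => max (c * p.1 + d * p.2 + e) 0) =
        fun p => r * max (c / r * p.1 + d / r * p.2 - -e / r) 0 := by
      funext p
      rw [mul_max_of_nonneg _ _ r1.le, mul_zero]
      congr 1
      field_simp
      ring
    rwa [e1]

end Pool.Agent.Pas
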