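import Mathlib

/-! Planar convex domains, length measures, reflections. -/

set_option autoImplicit false

namespace Pool.Agent.Pas

open MeasureTheory Set

/-- A bounded open convex nonempty planar set. -/
structure Dom (Ω : Set (ℝ × ℝ)) : Prop where
  op : IsOpen Ω
  cv : Convex ℝ Ω
  bd : Bornology.IsBounded Ω
  ne : Ω.Nonempty

/-- The two properties of Euclidean length that are used. -/
structure IsLen (ρ : Measure (ℝ × ℝ)) : Prop where
  low : ∀ (S : Set (ℝ × ℝ)) (c d : ℝ), c ^ 2 + d ^ 2 ≤ 1 →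
    volume ((fun p : ℝ × ℝ => c * p.1 + d * p.2) '' S) ≤ ρ S
  up : ∀ (S : Set (ℝ × ℝ)) (τ : ℝ × ℝ → ℝ),
    (∀ p ∈ S, ∀ q ∈ S, (p.1 - q.1) ^ 2 + (p.2 - q.2) ^ 2 ≤ (τ p - τ q) ^ 2) →
    ρ S ≤ volume (τ '' S)

variable {Ω : Set (ℝ × ℝ)} {ρ : Measure (ℝ × ℝ)}

theorem Dom.combo (h : Dom Ω) {p q : ℝ × ℝ} (hp : p ∈ Ω) (hq : q ∈ closure Ω) {a b : ℝ}
    (ha : 0 < a) (hb : 0 ≤ b) (hab : a + b = 1) : a • p + b • q ∈ Ω := by
  have := h.cv.combo_interior_closure_mem_interior (h.op.interior_eq.symm ▸ hp) hq ha hb hab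
  rwa [h.op.interior_eq] at this

theorem Dom.mem_frontier (h : Dom Ω) {p : ℝ × ℝ} : p ∈ frontier Ω ↔ p ∈ closure Ω ∧ p ∉ Ω := by
  rw [h.op.frontier_eq]; rfl

/-- A segment from inside to outside meets the frontier. -/
theorem exit_frontier (ho : IsOpen Ω) {p q : ℝ × ℝ} (hp : p ∈ Ω) (hq : q ∉ Ω) :
    ∃ l : ℝ, 0 < l ∧ l ≤ 1 ∧ p + l • (q - p) ∈ frontier Ω := by
  have hc : Continuous fun l : ℝ => p + l • (q - p) := by fun_prop
  by_contra hn
  push Not at hn
  have h0 : (0 : ℝ) ∈ (fun l : ℝ => p + l • (q - p)) ⁻¹' Ω := by simpa using hp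
  have hsub : Icc (0 : ℝ) 1 ⊆ (fun l : ℝ => p + l • (q - p)) ⁻¹' Ω := by
    refine isPreconnected_Icc.subset_of_closure_inter_subset (ho.preimage hc)
      ⟨0, ⟨le_rfl, zero_le_one⟩, h0⟩ ?_
    rintro l ⟨h1, h2, h3⟩
    rcases h2.eq_or_lt with rfl | h2
    · exact h0
    · have h4 := hn l h2 h3
      rw [ho.frontier_eq] at h4
      by_contra h5
      exact h4 ⟨hc.closure_preimage_subset _ h1, h5⟩
  exact hq (by simpa using hsub ⟨zero_le_one, le_rfl⟩)

/-- A supporting functional at a point outside. -/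
theorem Dom.support (h : Dom Ω) {q : ℝ × ℝ} (hq : q ∉ Ω) :
    ∃ c d : ℝ, (∀ p ∈ Ω, c * q.1 + d * q.2 < c * p.1 + d * p.2) ∧
      ∀ p ∈ closure Ω, c * q.1 + d * q.2 ≤ c * p.1 + d * p.2 := by
  obtain ⟨f, hf⟩ := geometric_hahn_banach_point_open h.cv h.op hq
  have e : ∀ p : ℝ × ℝ, f p = f (1, 0) * p.1 + f (0, 1) * p.2 := fun p => by
    have : p = p.1 • ((1 : ℝ), (0 : ℝ)) + p.2 • ((0 : ℝ), (1 : ℝ)) := by ext <;> simp
    conv_lhs => rw [this, map_add, map_smul, map_smul]
    simp only [smul_eq_mul]; ring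
  refine ⟨f (1, 0), f (0, 1), fun p hp => by rw [← e, ← e]; exact hf p hp, fun p hp => ?_⟩
  rw [← e, ← e]
  exact closure_minimal (fun x hx => (hf x hx).le) (isClosed_le continuous_const f.continuous) hp

theorem vol_lin (a b c d : ℝ) (h : |a * d - b * c| = 1) (S : Set (ℝ × ℝ)) :
    volume ((fun p : ℝ × ℝ => (a * p.1 + b * p.2, c * p.1 + d * p.2)) ⁻¹' S) = volume S := by
  have e : (fun p : ℝ × ℝ => (a * p.1 + b * p.2, c * p.1 + d * p.2)) =
      Matrix.toLin (Module.Basis.finTwoProd ℝ) (Module.Basis.finTwoProd ℝ) !![a, b; c, d] := by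
    funext p; rw [Matrix.toLin_finTwoProd_apply]
  have hd : LinearMap.det (Matrix.toLin (Module.Basis.finTwoProd ℝ) (Module.Basis.finTwoProd ℝ)
      !![a, b; c, d]) = a * d - b * c := by
    rw [LinearMap.det_toLin, Matrix.det_fin_two_of]
  have h0 : a * d - b * c ≠ 0 := fun h0 => by rw [h0] at h; simp at h
  rw [e, Measure.addHaar_preimage_linearMap volume (by rwa [hd]), hd, abs_inv, h]
  simp

/-- The orthogonal involution whose second coordinate is `c x + d y`. -/
def rf (c d : ℝ) (p : ℝ × ℝ) : ℝ × ℝ := (-d * p.1 + c * p.2, c * p.1 + d * p.2)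

theorem rf_rf {c d : ℝ} (h : c ^ 2 + d ^ 2 = 1) (p : ℝ × ℝ) : rf c d (rf c d p) = p := by
  ext
  · simp only [rf]; linear_combination p.1 * h
  · simp only [rf]; linear_combination p.2 * h

theorem rf_cont (c d : ℝ) : Continuous (rf c d) := by unfold rf; fun_prop

/-- `rf` as a homeomorphism. -/
def rfH {c d : ℝ} (h : c ^ 2 + d ^ 2 = 1) : (ℝ × ℝ) ≃ₜ (ℝ × ℝ) where
  toFun := rf c d
  invFun := rf c d
  left_inv := rf_rf h
  right_inv := rf_rf h
  continuous_toFun := rf_cont c d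
  continuous_invFun := rf_cont c d

theorem vol_rf {c d : ℝ} (h : c ^ 2 + d ^ 2 = 1) (S : Set (ℝ × ℝ)) :
    volume (rf c d ⁻¹' S) = volume S :=
  vol_lin (-d) c c d (by rw [show -d * d - c * c = -1 by linear_combination -h]; simp) S

theorem map_rf {c d : ℝ} (h : c ^ 2 + d ^ 2 = 1) (S : Set (ℝ × ℝ)) :
    ρ.map (rf c d) S = ρ (rf c d ⁻¹' S) := (rfH h).toMeasurableEquiv.map_apply S

theorem frontier_rf {c d : ℝ} (h : c ^ 2 + d ^ 2 = 1) (S : Set (ℝ × ℝ)) :
    frontier (rf c d ⁻¹' S) = rf c d ⁻¹' frontier S := ((rfH h).preimage_frontier S).symm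

theorem pre_pre {c d : ℝ} (h : c ^ 2 + d ^ 2 = 1) (S : Set (ℝ × ℝ)) :
    rf c d ⁻¹' (rf c d ⁻¹' S) = S := by ext p; simp only [mem_preimage, rf_rf h]

theorem pre_eq_image {c d : ℝ} (h : c ^ 2 + d ^ 2 = 1) (S : Set (ℝ × ℝ)) :
    rf c d ⁻¹' S = rf c d '' S := ((rfH h).toEquiv.image_eq_preimage_symm S).symm

theorem Dom.rf (hΩ : Dom Ω) {c d : ℝ} (h : c ^ 2 + d ^ 2 = 1) : Dom (rf c d ⁻¹' Ω) where
  op := hΩ.op.preimage (rf_cont c d)
  cv := fun p hp q hq a b ha hb hab => by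
    have := hΩ.cv hp hq ha hb hab
    have e : Pas.rf c d (a • p + b • q) = a • Pas.rf c d p + b • Pas.rf c d q := by
      ext <;> simp [Pas.rf] <;> ring
    rwa [mem_preimage, e]
  bd := by
    rw [pre_eq_image h]
    exact ((hΩ.bd.isCompact_closure.image (rf_cont c d)).isBounded).subset
      (image_mono subset_closure)
  ne := by rw [pre_eq_image h]; exact hΩ.ne.image _

theorem IsLen.rf (hρ : IsLen ρ) {c d : ℝ} (h : c ^ 2 + d ^ 2 = 1) : IsLen (ρ.map (rf c d)) where
  low := fun S a b hab => by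
    rw [map_rf h, pre_eq_image h]
    refine le_trans (le_of_eq ?_) (hρ.low _ (-d * a + c * b) (c * a + d * b) ?_)
    · rw [image_image]
      refine congrArg _ (image_congr fun p _ => ?_)
      simp only [Pas.rf]
      linear_combination (-(a * p.1) - b * p.2) * h
    · nlinarith
  up := fun S τ hτ => by
    rw [map_rf h]
    refine le_trans (hρ.up _ (fun p => τ (Pas.rf c d p)) fun p hp q hq => ?_) (measure_mono ?_)
    · refine le_trans (le_of_eq ?_) (hτ _ hp _ hq)
      simp only [Pas.rf]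
      linear_combination (-((p.1 - q.1) ^ 2) - (p.2 - q.2) ^ 2) * h
    · rintro _ ⟨p, hp, rfl⟩
      exact ⟨_, hp, rfl⟩

theorem IsLen.single (hρ : IsLen ρ) (p : ℝ × ℝ) : ρ {p} = 0 := by
  have := hρ.up {p} (fun _ => 0) (by simp)
  simpa using this

/-- The frontier has finite length. -/
theorem Dom.len_fin (h : Dom Ω) (hρ : IsLen ρ) : ρ (frontier Ω) ≠ ⊤ := by
  have key : ∀ e : ℝ, e = 1 ∨ e = -1 → ∀ g : ℝ, g = 1 ∨ g = -1 →
      ρ {q | q ∈ frontier Ω ∧ ∃ c d : ℝ, 0 ≤ e * c ∧ 0 ≤ g * d ∧ (c ≠ 0 ∨ d ≠ 0) ∧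
        ∀ p ∈ closure Ω, c * q.1 + d * q.2 ≤ c * p.1 + d * p.2} < ⊤ := by
    intro e he g hg
    refine lt_of_le_of_lt (hρ.up _ (fun p => e * p.1 - g * p.2) ?_) ?_
    · rintro p ⟨hp, c, d, h1, h2, h3, h4⟩ q ⟨hq, c', d', k1, k2, k3, k4⟩
      have a1 := h4 q (frontier_subset_closure hq)
      have a2 := k4 p (frontier_subset_closure hp)
      have : (e * (p.1 - q.1)) * (g * (p.2 - q.2)) ≤ 0 := by
        by_contra hn
        rw [not_le] at hn
        rcases pos_and_pos_or_neg_and_neg_of_mul_pos hn with ⟨b1, b2⟩ | ⟨b1, b2⟩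
        · have c1 := mul_nonneg h1 b1.le
          have c2 := mul_nonneg h2 b2.le
          rcases h3 with h3 | h3
          · have : 0 < e * c := lt_of_le_of_ne h1 (by rcases he with rfl | rfl <;> simpa [eq_comm])
            have := mul_pos this b1
            rcases he with rfl | rfl <;> rcases hg with rfl | rfl <;> nlinarith
          · have : 0 < g * d := lt_of_le_of_ne h2 (by rcases hg with rfl | rfl <;> simpa [eq_comm])
            have := mul_pos this b2
            rcases he with rfl | rfl <;> rcases hg with rfl | rfl <;> nlinarith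
        · have c1 := mul_nonneg k1 (neg_pos.2 b1).le
          have c2 := mul_nonneg k2 (neg_pos.2 b2).le
          rcases k3 with h3 | h3
          · have : 0 < e * c' := lt_of_le_of_ne k1 (by rcases he with rfl | rfl <;> simpa [eq_comm])
            have := mul_pos this (neg_pos.2 b1)
            rcases he with rfl | rfl <;> rcases hg with rfl | rfl <;> nlinarith
          · have : 0 < g * d' := lt_of_le_of_ne k2 (by rcases hg with rfl | rfl <;> simpa [eq_comm])
            have := mul_pos this (neg_pos.2 b2)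
            rcases he with rfl | rfl <;> rcases hg with rfl | rfl <;> nlinarith
      rcases he with rfl | rfl <;> rcases hg with rfl | rfl <;> nlinarith
    · refine lt_of_le_of_lt (measure_mono (image_mono fun q hq => frontier_subset_closure hq.1))
        (h.bd.isCompact_closure.image (by fun_prop)).measure_lt_top
  have k1 := key 1 (Or.inl rfl) 1 (Or.inl rfl)
  have k2 := key 1 (Or.inl rfl) (-1) (Or.inr rfl)
  have k3 := key (-1) (Or.inr rfl) 1 (Or.inl rfl)
  have k4 := key (-1) (Or.inr rfl) (-1) (Or.inr rfl)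
  refine (lt_of_le_of_lt (measure_mono fun q hq => ?_) (measure_union_lt_top
    (measure_union_lt_top k1 k2) (measure_union_lt_top k3 k4))).ne
  obtain ⟨c, d, h1, h2⟩ := h.support (h.mem_frontier.1 hq).2
  obtain ⟨z, hz⟩ := h.ne
  have h3 : c ≠ 0 ∨ d ≠ 0 := by
    by_contra hn
    push Not at hn
    have := h1 z hz
    simp [hn.1, hn.2] at this
  rcases le_total 0 c with a | a <;> rcases le_total 0 d with b | b
  · exact Or.inl (Or.inl ⟨hq, c, d, by linarith, by linarith, h3, h2⟩)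
  · exact Or.inl (Or.inr ⟨hq, c, d, by linarith, by linarith, h3, h2⟩)
  · exact Or.inr (Or.inl ⟨hq, c, d, by linarith, by linarith, h3, h2⟩)
  · exact Or.inr (Or.inr ⟨hq, c, d, by linarith, by linarith, h3, h2⟩)

theorem Dom.vol_fin (h : Dom Ω) : volume Ω ≠ ⊤ := h.bd.measure_lt_top.ne

theorem Dom.vol_pos (h : Dom Ω) : volume Ω ≠ 0 := (h.op.measure_pos volume h.ne).ne'

end Pool.Agent.Pas
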