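import Pool.Agent.MP_a32717_an.PasSlice

/-! The inequality between area, base and boundary length of a cap. -/

set_option autoImplicit false

namespace Pool.Agent.Pas

open MeasureTheory Set

variable {Ω : Set (ℝ × ℝ)} {ρ : Measure (ℝ × ℝ)}

/-- One of the two boundary pieces is at least as long as a projection. -/
theorem Dom.side (h : Dom Ω) (hρ : IsLen ρ) {c s k μ e d1 d2 x y : ℝ} (hc : (c, s) ∈ closure Ω)
    (hZ : (x, y) ∈ Ω) (hy : s ≤ y) (hμ : 0 < μ) (hμ2 : μ ^ 2 = 1 + k ^ 2)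
    (hw : ∀ η : ℝ, 0 < η → (c + k * η, s + η) ∉ Ω) (h1 : 0 < e * (x - c - k * (y - s)))
    (h2 : 0 < d2) (h3 : 0 ≤ e * (d2 * k - d1)) (h4 : 0 ≤ d1 * k + d2) :
    ENNReal.ofReal ((k * (x - c) + (y - s)) / μ) ≤ ρ (frontier Ω ∩ {p | s < p.2} ∩
      {p | e * (d1 * y - d2 * x) < e * (d1 * p.2 - d2 * p.1)}) := by
  refine le_trans ?_ (hρ.low _ (k / μ) (1 / μ) (le_of_eq (by field_simp; linarith)))
  have e1 : (k * (x - c) + (y - s)) / μ = (k * x + y) / μ - (k * c + s) / μ := by ring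
  rw [e1, ← Real.volume_Ioo]
  refine measure_mono fun ξ hξ => ?_
  set P := k * (x - c) + (y - s) with hP
  have k1 : k * c + s < ξ * μ := (div_lt_iff₀ hμ).1 hξ.1
  have k2 : ξ * μ < k * x + y := (lt_div_iff₀ hμ).1 hξ.2
  have hP0 : 0 < P := by rw [hP]; linarith
  set θ := (ξ * μ - (k * c + s)) / P with hθ
  have t0 : 0 < θ := div_pos (by linarith) hP0
  have t1 : θ < 1 := (div_lt_one hP0).2 (by rw [hP]; linarith)
  have tP : θ * P = ξ * μ - (k * c + s) := div_mul_cancel₀ _ hP0.ne'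
  have hq : (0 : ℝ) < 1 + k ^ 2 := by positivity
  have hin := h.combo hZ hc t0 (sub_pos.2 t1).le (by ring)
  obtain ⟨l, l0, l1, hl⟩ := exit_frontier h.op hin (hw (θ * P / (1 + k ^ 2)) (by positivity))
  set g := x - c - k * (y - s) with hg
  set r := θ * g / (1 + k ^ 2) with hr
  have ep : θ • (x, y) + (1 - θ) • (c, s) + l • ((c + k * (θ * P / (1 + k ^ 2)),
      s + θ * P / (1 + k ^ 2)) - (θ • (x, y) + (1 - θ) • (c, s))) =
      (c + θ * (x - c) - l * r, s + θ * (y - s) + l * (k * r)) := by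
    ext
    · simp only [Prod.fst_add, Prod.smul_fst, Prod.fst_sub, smul_eq_mul, hr, hg, hP]
      field_simp; ring
    · simp only [Prod.snd_add, Prod.smul_snd, Prod.snd_sub, smul_eq_mul, hr, hg, hP]
      field_simp; ring
  rw [ep] at hl
  refine ⟨_, ⟨⟨hl, ?_⟩, ?_⟩, ?_⟩
  · have e2 : θ * (y - s) + k * r = θ * P / (1 + k ^ 2) := by
      simp only [hr, hg, hP]; field_simp; ring
    have a1 : 0 < l * (θ * P / (1 + k ^ 2)) := by positivity
    have a2 : 0 ≤ (1 - l) * (θ * (y - s)) :=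
      mul_nonneg (sub_nonneg.2 l1) (mul_nonneg t0.le (sub_nonneg.2 hy))
    rw [← e2] at a1
    show s < s + θ * (y - s) + l * (k * r)
    nlinarith
  · have a1 : 0 < e * r := by
      rw [hr, ← mul_div_assoc, mul_left_comm]; exact div_pos (mul_pos t0 h1) hq
    have a2 : 0 ≤ l * ((e * r) * (d1 * k + d2)) := by positivity
    have a3 : 0 < (1 - θ) * (d2 * (e * g) + (y - s) * (e * (d2 * k - d1))) :=
      mul_pos (sub_pos.2 t1) (add_pos_of_pos_of_nonneg (mul_pos h2 h1)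
        (mul_nonneg (sub_nonneg.2 hy) h3))
    show e * (d1 * y - d2 * x) <
      e * (d1 * (s + θ * (y - s) + l * (k * r)) - d2 * (c + θ * (x - c) - l * r))
    rw [hg] at a3
    nlinarith
  · simp only
    field_simp
    rw [hP] at tP
    linarith

theorem vol_trap {w h0 h1 : ℝ} (hw : 0 ≤ w) (hpos : ∀ X ∈ Ioo 0 w, 0 ≤ h0 + h1 * X) :
    volume {p : ℝ × ℝ | p.1 ∈ Ioo 0 w ∧ p.2 ∈ Icc 0 (h0 + h1 * p.1)} =
      ENNReal.ofReal (w * (h0 + h1 * w / 2)) := by
  have hm : MeasurableSet {p : ℝ × ℝ | p.1 ∈ Ioo 0 w ∧ p.2 ∈ Icc 0 (h0 + h1 * p.1)} :=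
    measurableSet_region_between_cc (f := fun _ => 0) (g := fun X => h0 + h1 * X) measurable_const
      (by fun_prop) measurableSet_Ioo
  rw [Measure.volume_eq_prod, Measure.prod_apply hm]
  have e : (fun X : ℝ => volume (Prod.mk X ⁻¹'
      {p : ℝ × ℝ | p.1 ∈ Ioo 0 w ∧ p.2 ∈ Icc 0 (h0 + h1 * p.1)})) =
      (Ioo 0 w).indicator fun X => ENNReal.ofReal (h0 + h1 * X) := by
    funext X
    by_cases hX : X ∈ Ioo 0 w
    · rw [indicator_of_mem hX, ← sub_zero (h0 + h1 * X), ← Real.volume_Icc]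
      congr 1; ext t; simp only [mem_preimage, mem_ofPred_eq, hX, true_and]
    · rw [indicator_of_notMem hX, ← measure_empty (μ := (volume : Measure ℝ))]
      congr 1; ext t; simp only [mem_preimage, mem_ofPred_eq, hX, false_and, mem_empty_iff_false]
  have hi : IntegrableOn (fun X : ℝ => h0 + h1 * X) (Ioo 0 w) :=
    ((by fun_prop : Continuous fun X : ℝ => h0 + h1 * X).integrableOn_Icc).mono_set
      Ioo_subset_Icc_self
  rw [e, lintegral_indicator measurableSet_Ioo, ← ofReal_integral_eq_lintegral_ofReal hi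
    ((ae_restrict_iff' measurableSet_Ioo).2 (Filter.Eventually.of_forall hpos)),
    ← integral_Ioc_eq_integral_Ioo, ← intervalIntegral.integral_of_le hw,
    intervalIntegral.integral_add (by simp) (by apply Continuous.intervalIntegrable; fun_prop),
    intervalIntegral.integral_const, intervalIntegral.integral_const_mul, integral_id]
  congr 1
  simp only [smul_eq_mul]; ring

theorem vol_shear (a0 k s : ℝ) (T : Set (ℝ × ℝ)) :
    volume ((fun p : ℝ × ℝ => (p.1 - a0 - k * (p.2 - s), p.2 - s)) ⁻¹' T) = volume T := by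
  have e : (fun p : ℝ × ℝ => (p.1 - a0 - k * (p.2 - s), p.2 - s)) ⁻¹' T =
      (fun p : ℝ × ℝ => (1 * p.1 + -k * p.2, 0 * p.1 + 1 * p.2)) ⁻¹'
        ((fun q : ℝ × ℝ => q + (k * s - a0, -s)) ⁻¹' T) := by
    ext p
    simp only [mem_preimage, Prod.mk_add_mk]
    rw [show 1 * p.1 + -k * p.2 + (k * s - a0) = p.1 - a0 - k * (p.2 - s) by ring,
      show 0 * p.1 + 1 * p.2 + -s = p.2 - s by ring]
  rw [e, vol_lin _ _ _ _ (by simp), measure_preimage_add_right]

theorem area_le {S : Set (ℝ × ℝ)} {a0 k s w h0 h1 : ℝ} (hw : 0 ≤ w)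
    (hpos : ∀ X ∈ Ioo 0 w, 0 ≤ h0 + h1 * X)
    (hS : ∀ p ∈ S, p.1 - a0 - k * (p.2 - s) ∈ Ioo 0 w ∧
      p.2 - s ∈ Icc 0 (h0 + h1 * (p.1 - a0 - k * (p.2 - s)))) :
    volume.real S ≤ w * (h0 + h1 * w / 2) := by
  refine ENNReal.toReal_le_of_le_ofReal ?_ ?_
  · rcases hw.eq_or_lt with rfl | hw
    · simp
    · have := hpos (w / 2) ⟨by linarith, by linarith⟩
      exact mul_nonneg hw.le (by linarith)
  · rw [← vol_trap hw hpos, ← vol_shear a0 k s {p : ℝ × ℝ | p.1 ∈ Ioo 0 w ∧ _}]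
    exact measure_mono hS

theorem area_ge {S : Set (ℝ × ℝ)} (hS : volume S ≠ ⊤) {a0 k s w h0 : ℝ} (hw : 0 ≤ w) (hh : 0 ≤ h0)
    (h : ∀ p : ℝ × ℝ, p.1 - a0 - k * (p.2 - s) ∈ Ioo 0 w → p.2 - s ∈ Ioo 0 h0 → p ∈ S) :
    w * h0 ≤ volume.real S := by
  have e : volume (Ioo 0 w ×ˢ Ioo 0 h0) = ENNReal.ofReal (w * h0) := by
    rw [Measure.volume_eq_prod, Measure.prod_prod, Real.volume_Ioo, Real.volume_Ioo, sub_zero,
      sub_zero, ENNReal.ofReal_mul hw]
  rw [← ENNReal.toReal_ofReal (mul_nonneg hw hh), ← e, ← vol_shear a0 k s]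
  exact ENNReal.toReal_mono hS (measure_mono fun p hp => h p hp.1 hp.2)

/-- The cap inequality. -/
theorem Dom.cap (h : Dom Ω) (hρ : IsLen ρ) {a0 w s m n : ℝ} (hw : 0 < w) (hmn : n ≤ m)
    (ha : (a0, s) ∈ closure Ω) (hb : (a0 + w, s) ∈ closure Ω)
    (hbase : ∀ X ∈ Ioo 0 w, (a0 + X, s) ∈ Ω)
    (hin : ∀ p ∈ Ω, s < p.2 → a0 + m * (p.2 - s) < p.1 ∧ p.1 < a0 + w + n * (p.2 - s)) :
    (√(1 + m ^ 2) + √(1 + n ^ 2)) * volume.real (Ω ∩ {p | s < p.2}) ≤
      w * ρ.real (frontier Ω ∩ {p | s < p.2}) := by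
  set μ := √(1 + m ^ 2) with hμ
  set ν := √(1 + n ^ 2) with hν
  have μ0 : 0 < μ := Real.sqrt_pos.2 (by positivity)
  have ν0 : 0 < ν := Real.sqrt_pos.2 (by positivity)
  have μ2 : μ ^ 2 = 1 + m ^ 2 := Real.sq_sqrt (by positivity)
  have ν2 : ν ^ 2 = 1 + n ^ 2 := Real.sq_sqrt (by positivity)
  have hprod : (μ * ν) ^ 2 = (1 + m * n) ^ 2 + (m - n) ^ 2 := by rw [mul_pow, μ2, ν2]; ring
  have hD : 0 < μ * ν + 1 + m * n := by
    by_contra hn
    have a1 := mul_pos μ0 ν0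
    have a2 : m - n = 0 := by nlinarith
    have a3 : m = n := by linarith
    subst a3
    nlinarith
  set L := ρ.real (frontier Ω ∩ {p | s < p.2}) with hL
  have hfin : ρ (frontier Ω ∩ {p | s < p.2}) ≠ ⊤ :=
    ne_top_of_le_ne_top (h.len_fin hρ) (measure_mono inter_subset_left)
  have phi : ∀ x y : ℝ, (x, y) ∈ Ω → s ≤ y → a0 + m * (y - s) < x → x < a0 + w + n * (y - s) →
      (m * (x - a0) + (y - s)) / μ + (n * (x - (a0 + w)) + (y - s)) / ν ≤ L := by
    intro x y hZ hy b1 b2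
    have s1 := h.side hρ (e := 1) (d1 := m * ν + n * μ) (d2 := μ + ν) ha hZ hy μ0 μ2
      (fun η hη k => by have := (hin _ k (by simpa using hη)).1; simp at this)
      (by linarith) (by linarith) (by nlinarith [mul_nonneg μ0.le (sub_nonneg.2 hmn)])
      (by nlinarith [mul_pos μ0 hD])
    have s2 := h.side hρ (e := -1) (d1 := m * ν + n * μ) (d2 := μ + ν) hb hZ hy ν0 ν2
      (fun η hη k => by have := (hin _ k (by simpa using hη)).2; simp at this)
      (by linarith) (by linarith) (by nlinarith [mul_nonneg ν0.le (sub_nonneg.2 hmn)])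
      (by nlinarith [mul_pos ν0 hD])
    have s3 := measure_inter_add_sdiff (μ := ρ) (frontier Ω ∩ {p | s < p.2})
      (measurableSet_lt (measurable_const (a := 1 * ((m * ν + n * μ) * y - (μ + ν) * x)))
        (by fun_prop : Measurable fun p : ℝ × ℝ => 1 * ((m * ν + n * μ) * p.2 - (μ + ν) * p.1)))
    refine (ENNReal.ofReal_le_iff_le_toReal hfin).1 (ENNReal.ofReal_add_le.trans
      ((add_le_add s1 (s2.trans (measure_mono fun p hp => ?_))).trans s3.le))
    refine ⟨hp.1, fun k => ?_⟩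
    have k1 := hp.2
    simp only [mem_ofPred_eq] at k k1
    linarith
  obtain ⟨κ, κ0, κ1⟩ : ∃ κ : ℝ, 0 ≤ κ ∧ κ * (μ * ν + 1 + m * n) = m - n :=
    ⟨_, div_nonneg (sub_nonneg.2 hmn) hD.le, div_mul_cancel₀ _ hD.ne'⟩
  have κ2 : μ * ν - 1 - m * n = κ * (m - n) := by
    refine mul_right_cancel₀ hD.ne' ?_
    rw [mul_right_comm, κ1]; linear_combination hprod
  have κ3 : κ * (μ + ν) = m * ν - n * μ := by
    refine mul_right_cancel₀ hD.ne' ?_
    rw [mul_right_comm, κ1]; linear_combination (n * ν) * μ2 - (m * μ) * ν2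
  have base : ∀ X ∈ Ioo 0 w, m * X * ν + n * (X - w) * μ ≤ L * μ * ν := fun X hX => by
    have := phi (a0 + X) s (hbase X hX) le_rfl (by linarith [hX.1]) (by linarith [hX.2])
    rw [div_add_div _ _ μ0.ne' ν0.ne', div_le_iff₀ (mul_pos μ0 ν0)] at this
    linarith
  have top : ∀ p ∈ Ω, s < p.2 → (m * (p.1 - a0) + (p.2 - s)) * ν +
      μ * (n * (p.1 - (a0 + w)) + (p.2 - s)) ≤ L * (μ * ν) := fun p hp hs => by
    have := phi p.1 p.2 hp hs.le (hin p hp hs).1 (hin p hp hs).2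
    rwa [div_add_div _ _ μ0.ne' ν0.ne', div_le_iff₀ (mul_pos μ0 ν0)] at this
  have q1 : 0 < 2 * μ * (μ * ν) := by positivity
  have q2 : 0 < 2 * ν * (μ * ν) := by positivity
  have A1 := area_le (S := Ω ∩ {p | s < p.2}) (a0 := a0) (k := m) (s := s)
    (h0 := (L * μ * ν + n * w * μ + κ * w * μ) / (2 * μ * (μ * ν)))
    (h1 := -(m * ν + n * μ + κ * μ) / (2 * μ * (μ * ν))) hw.le
    (fun X hX => by
      rw [div_mul_eq_mul_div, ← add_div]
      refine div_nonneg ?_ q1.le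
      nlinarith [base X hX, mul_nonneg (mul_nonneg κ0 μ0.le) (sub_pos.2 hX.2).le])
    (fun p hp => by
      have b := hin p hp.1 hp.2
      have b0 : 0 < p.2 - s := sub_pos.2 hp.2
      have b1 := mul_nonneg (sub_nonneg.2 hmn) b0.le
      refine ⟨⟨by linarith [b.1], by nlinarith [b.2]⟩, b0.le, ?_⟩
      rw [div_mul_eq_mul_div, ← add_div, le_div_iff₀ q1]
      have c1 := top p hp.1 hp.2
      have c2 : 0 ≤ κ * μ * (a0 + w + n * (p.2 - s) - p.1) :=
        mul_nonneg (mul_nonneg κ0 μ0.le) (by linarith [b.2])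
      have c3 : (p.2 - s) * μ * (μ * ν - 1 - m * n) = (p.2 - s) * μ * (κ * (m - n)) := by rw [κ2]
      have c4 : (p.2 - s) * ν * μ ^ 2 = (p.2 - s) * ν * (1 + m ^ 2) := by rw [μ2]
      linarith)
  have A2 := area_le (S := Ω ∩ {p | s < p.2}) (a0 := a0) (k := n) (s := s)
    (h0 := (L * μ * ν + n * w * μ) / (2 * ν * (μ * ν)))
    (h1 := -(m * ν + n * μ - κ * ν) / (2 * ν * (μ * ν))) hw.le
    (fun X hX => by
      rw [div_mul_eq_mul_div, ← add_div]
      refine div_nonneg ?_ q2.le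
      nlinarith [base X hX, mul_nonneg (mul_nonneg κ0 ν0.le) hX.1.le])
    (fun p hp => by
      have b := hin p hp.1 hp.2
      have b0 : 0 < p.2 - s := sub_pos.2 hp.2
      have b1 := mul_nonneg (sub_nonneg.2 hmn) b0.le
      refine ⟨⟨by nlinarith [b.1], by linarith [b.2]⟩, b0.le, ?_⟩
      rw [div_mul_eq_mul_div, ← add_div, le_div_iff₀ q2]
      have c1 := top p hp.1 hp.2
      have c2 : 0 ≤ κ * ν * (p.1 - (a0 + m * (p.2 - s))) :=
        mul_nonneg (mul_nonneg κ0 ν0.le) (by linarith [b.1])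
      have c3 : (p.2 - s) * ν * (μ * ν - 1 - m * n) = (p.2 - s) * ν * (κ * (m - n)) := by rw [κ2]
      have c4 : (p.2 - s) * μ * ν ^ 2 = (p.2 - s) * μ * (1 + n ^ 2) := by rw [ν2]
      linarith)
  set A := volume.real (Ω ∩ {p | s < p.2})
  have B1 : A * (2 * μ * (μ * ν)) ≤
      w * (L * μ * ν + n * w * μ + κ * w * μ - (m * ν + n * μ + κ * μ) * w / 2) := by
    rw [← le_div_iff₀ q1]; refine A1.trans (le_of_eq ?_); ring
  have B2 : A * (2 * ν * (μ * ν)) ≤
      w * (L * μ * ν + n * w * μ - (m * ν + n * μ - κ * ν) * w / 2) := by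
    rw [← le_div_iff₀ q2]; refine A2.trans (le_of_eq ?_); ring
  have B3 : 0 ≤ w * w * (κ * (μ + ν)) := by positivity
  have B4 : w * w * (κ * (μ + ν)) = w * w * (m * ν - n * μ) := by rw [κ3]
  refine le_of_mul_le_mul_right ?_ (mul_pos two_pos (mul_pos μ0 ν0))
  linarith

end Pool.Agent.Pas
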