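import Pool.Agent.MP_a32717_an.PasCap

/-! Single crossing of the height distributions of area and boundary length. -/

set_option autoImplicit false

namespace Pool.Agent.Pas

open MeasureTheory Set

variable {Ω : Set (ℝ × ℝ)} {ρ : Measure (ℝ × ℝ)}

theorem ch_slope (a : ℝ → ℝ) {t t' : ℝ} (h : t < t') :
    ch a t t' = √(1 + ((a t' - a t) / (t' - t)) ^ 2) * (t' - t) := by
  have h0 : 0 < t' - t := sub_pos.2 h
  rw [ch, ← Real.sqrt_sq h0.le, ← Real.sqrt_mul (by positivity), Real.sqrt_sq h0.le]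
  congr 1
  field_simp
  ring

theorem Dom.up (h : Dom Ω) (hρ : IsLen ρ) {τ s : ℝ} (hτ : τ ≤ s) (h1 : τ ∈ hts Ω)
    (h2 : s ∈ hts Ω)
    (hanti : ∀ t ∈ Icc τ s, ∀ t' ∈ Icc τ s, t ≤ t' → hi Ω t' - lo Ω t' ≤ hi Ω t - lo Ω t) :
    ρ.real (frontier Ω ∩ {p | τ < p.2}) * volume.real (Ω ∩ {p | s < p.2}) ≤
      volume.real (Ω ∩ {p | τ < p.2}) * ρ.real (frontier Ω ∩ {p | s < p.2}) := by
  rcases hτ.eq_or_lt with rfl | hτ'
  · rw [mul_comm]
  have hJ : Icc τ s ⊆ hts Ω := h.hts_cv.ordConnected.out h1 h2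
  set A := volume.real (Ω ∩ {p | s < p.2}) with hA
  set L := ρ.real (frontier Ω ∩ {p | s < p.2}) with hL
  set w := hi Ω s - lo Ω s with hw
  have w0 : 0 < w := sub_pos.2 (h.lo_lt_hi h2)
  have L0 : 0 ≤ L := measureReal_nonneg
  have A0' : 0 ≤ A := measureReal_nonneg
  rcases A0'.eq_or_lt with A0 | A0
  · rw [← A0, mul_zero]; exact mul_nonneg measureReal_nonneg L0
  have key : ∀ t ∈ Icc τ s, ∀ t' ∈ Icc τ s, t ≤ t' →
      ch (lo Ω) t t' + ch (hi Ω) t t' ≤ w * L / A * (t' - t) := by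
    intro t ht t' ht' k
    rcases k.eq_or_lt with rfl | k
    · simp [ch]
    have c := h.cap hρ (a0 := lo Ω s) (w := w) (s := s) (m := (lo Ω t' - lo Ω t) / (t' - t))
      (n := (hi Ω t' - hi Ω t) / (t' - t)) w0
      (div_le_div_of_nonneg_right (by linarith [hanti t ht t' ht' k.le]) (sub_pos.2 k).le)
      (h.lo_cl h2) (by rw [hw, add_sub_cancel]; exact h.hi_cl h2)
      (fun X hX => h.mem_of_lt h2 (by linarith [hX.1]) (by linarith [hX.2]))
      (fun p hp hs => by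
        have b := h.lt_of_mem (x := p.1) (t := p.2) hp
        have b1 := slope_le h.lo_cv (hJ ht) ⟨p.1, hp⟩ k ht'.2 hs
        have b2 := slope_le h.hi_cc.neg (hJ ht) ⟨p.1, hp⟩ k ht'.2 hs
        simp only [Pi.neg_apply] at b2
        refine ⟨by linarith [b.1], ?_⟩
        have e : (-hi Ω t' - -hi Ω t) / (t' - t) = -((hi Ω t' - hi Ω t) / (t' - t)) := by ring
        rw [e] at b2
        linarith [b.2])
    rw [ch_slope _ k, ch_slope _ k, ← add_mul]
    exact mul_le_mul_of_nonneg_right ((le_div_iff₀ A0).2 c) (sub_pos.2 k).le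
  have M0 : 0 ≤ w * L / A * (s - τ) := mul_nonneg (by positivity) (sub_nonneg.2 hτ)
  have fin : ρ (frontier Ω ∩ {p | s < p.2}) ≠ ⊤ :=
    ne_top_of_le_ne_top (h.len_fin hρ) (measure_mono inter_subset_left)
  have k1 : ρ.real (frontier Ω ∩ {p | τ < p.2}) ≤ L + w * L / A * (s - τ) := by
    refine ENNReal.toReal_le_of_le_ofReal (by linarith) ?_
    rw [ENNReal.ofReal_add L0 M0, hL, ofReal_measureReal fin]
    refine le_trans (measure_mono ?_) ((measure_union_le _ _).trans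
      (add_le_add le_rfl ((measure_union_le _ _).trans (hρ.two (lo Ω) (hi Ω) hτ key))))
    rintro p ⟨hp, hp'⟩
    rcases lt_or_ge s p.2 with k | k
    · exact Or.inl ⟨hp, k⟩
    · have m : p.2 ∈ Icc τ s := ⟨le_of_lt hp', k⟩
      rcases h.frontier_slice hp (hJ m) with e | e
      · exact Or.inr (Or.inl ⟨_, m, e.symm⟩)
      · exact Or.inr (Or.inr ⟨_, m, e.symm⟩)
  have finA : volume (Ω ∩ {p | τ < p.2}) ≠ ⊤ :=
    ne_top_of_le_ne_top h.vol_fin (measure_mono inter_subset_left)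
  have k2 : A + w * (s - τ) ≤ volume.real (Ω ∩ {p | τ < p.2}) := by
    rw [← measureReal_inter_add_sdiff (t := {p : ℝ × ℝ | s < p.2})
      (measurableSet_lt measurable_const measurable_snd) finA]
    refine add_le_add (measureReal_mono (fun p hp => ⟨⟨hp.1, hτ'.trans hp.2⟩, hp.2⟩)
      (ne_top_of_le_ne_top finA (measure_mono inter_subset_left))) ?_
    refine area_ge (a0 := lo Ω τ) (k := (lo Ω s - lo Ω τ) / (s - τ)) (s := τ)
      (ne_top_of_le_ne_top finA (measure_mono sdiff_subset)) w0.le (sub_nonneg.2 hτ)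
      fun p p1 p2 => ⟨⟨?_, sub_pos.1 p2.1⟩, fun k => by linarith [p2.2, k.out]⟩
    have d0 : 0 < s - τ := sub_pos.2 hτ'
    set θ := (p.2 - τ) / (s - τ) with hθ
    have t0 : 0 ≤ θ := div_nonneg p2.1.le d0.le
    have t1 : 0 ≤ 1 - θ := sub_nonneg.2 ((div_le_one d0).2 p2.2.le)
    have e : (1 - θ) • τ + θ • s = p.2 := by
      simp only [smul_eq_mul, hθ]; field_simp; ring
    have c1 := h.lo_cv.2 h1 h2 t1 t0 (by ring)
    have c2 := h.hi_cc.2 h1 h2 t1 t0 (by ring)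
    rw [e] at c1 c2
    simp only [smul_eq_mul] at c1 c2
    have e2 : (lo Ω s - lo Ω τ) / (s - τ) * (p.2 - τ) = θ * (lo Ω s - lo Ω τ) := by
      rw [hθ]; ring
    rw [e2] at p1
    have c3 := mul_nonneg t1 (sub_nonneg.2 (hanti τ ⟨le_rfl, hτ⟩ s ⟨hτ, le_rfl⟩ hτ))
    exact h.mem_of_lt (hJ ⟨by linarith [p2.1], by linarith [p2.2]⟩) (by linarith [p1.1])
      (by nlinarith [p1.2])
  have e3 : (L + w * L / A * (s - τ)) * A = (A + w * (s - τ)) * L := by field_simp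
  calc _ ≤ (L + w * L / A * (s - τ)) * A := mul_le_mul_of_nonneg_right k1 A0.le
    _ ≤ _ := by rw [e3]; exact mul_le_mul_of_nonneg_right k2 L0

theorem len_rf {c d : ℝ} (h : c ^ 2 + d ^ 2 = 1) (P : ℝ → Prop) :
    (ρ.map (rf c d)).real (frontier (rf c d ⁻¹' Ω) ∩ {p | P p.2}) =
      ρ.real (frontier Ω ∩ {p | P (c * p.1 + d * p.2)}) := by
  rw [Measure.real, map_rf h, frontier_rf h, preimage_inter, pre_pre h]; rfl

theorem area_rf {c d : ℝ} (h : c ^ 2 + d ^ 2 = 1) (P : ℝ → Prop) :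
    volume.real (rf c d ⁻¹' Ω ∩ {p | P p.2}) =
      volume.real (Ω ∩ {p | P (c * p.1 + d * p.2)}) := by
  rw [Measure.real, ← vol_rf h, preimage_inter, pre_pre h]; rfl

theorem Dom.down (h : Dom Ω) (hρ : IsLen ρ) {τ s : ℝ} (hτ : s ≤ τ) (h1 : τ ∈ hts Ω)
    (h2 : s ∈ hts Ω)
    (hmono : ∀ t ∈ Icc s τ, ∀ t' ∈ Icc s τ, t ≤ t' → hi Ω t - lo Ω t ≤ hi Ω t' - lo Ω t') :
    ρ.real (frontier Ω ∩ {p | p.2 < τ}) * volume.real (Ω ∩ {p | p.2 < s}) ≤
      volume.real (Ω ∩ {p | p.2 < τ}) * ρ.real (frontier Ω ∩ {p | p.2 < s}) := by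
  have u : (0 : ℝ) ^ 2 + (-1) ^ 2 = 1 := by norm_num
  have e : ∀ t : ℝ, {x | (x, t) ∈ Pas.rf 0 (-1) ⁻¹' Ω} = {x | (x, -t) ∈ Ω} := fun t => by
    ext x; simp [Pas.rf]
  have e' : ∀ t : ℝ, t ∈ hts Ω → -t ∈ hts (Pas.rf 0 (-1) ⁻¹' Ω) := fun t ⟨x, hx⟩ =>
    ⟨x, by simpa [Pas.rf] using hx⟩
  have k := (h.rf u).up (hρ.rf u) (neg_le_neg hτ) (e' _ h1) (e' _ h2) fun t ht t' ht' k => by
    simp only [hi, lo, e]
    exact hmono (-t') ⟨by linarith [ht'.2], by linarith [ht'.1]⟩ (-t)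
      ⟨by linarith [ht.2], by linarith [ht.1]⟩ (neg_le_neg k)
  rw [len_rf u (fun y => -τ < y), len_rf u (fun y => -s < y), area_rf u (fun y => -τ < y),
    area_rf u (fun y => -s < y)] at k
  simpa using k

theorem Dom.cross0 (h : Dom Ω) (hρ : IsLen ρ) {s1 s2 : ℝ} (h12 : s1 ≤ s2)
    (k1 : ρ.real (frontier Ω ∩ {p | p.2 < s1}) * volume.real Ω <
      volume.real (Ω ∩ {p | p.2 < s1}) * ρ.real (frontier Ω))
    (k2 : ρ.real (frontier Ω ∩ {p | s2 < p.2}) * volume.real Ω <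
      volume.real (Ω ∩ {p | s2 < p.2}) * ρ.real (frontier Ω)) : False := by
  have pos : ∀ {S T : Set (ℝ × ℝ)}, ρ.real T * volume.real Ω <
      volume.real S * ρ.real (frontier Ω) → 0 < volume.real S := fun k =>
    lt_of_le_of_ne measureReal_nonneg fun e => by
      rw [← e, zero_mul] at k
      exact k.not_ge (mul_nonneg measureReal_nonneg measureReal_nonneg)
  have a1 := pos k1
  have a2 := pos k2
  obtain ⟨p1, hp1, hp1'⟩ := nonempty_of_measureReal_ne_zero a1.ne'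
  obtain ⟨p2, hp2, hp2'⟩ := nonempty_of_measureReal_ne_zero a2.ne'
  have hJ : Icc s1 s2 ⊆ hts Ω := (Icc_subset_Icc (le_of_lt hp1') (le_of_lt hp2')).trans
    (h.hts_cv.ordConnected.out ⟨p1.1, hp1⟩ ⟨p2.1, hp2⟩)
  have hcc : ConcaveOn ℝ (hts Ω) (hi Ω - lo Ω) := h.hi_cc.sub h.lo_cv
  obtain ⟨τ, hτ, hmax⟩ := isCompact_Icc.exists_isMaxOn (nonempty_Icc.2 h12)
    ((hcc.continuousOn h.hts_op).mono hJ)
  have u := h.up hρ hτ.2 (hJ hτ) (hJ ⟨h12, le_rfl⟩) fun t ht t' ht' k => by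
    have m : t' ∈ Icc s1 s2 := ⟨hτ.1.trans ht'.1, ht'.2⟩
    have := hcc.min_le_of_mem_Icc (hJ hτ) (hJ m) ⟨ht.1, k⟩
    rwa [min_eq_right (hmax m)] at this
  have d := h.down hρ hτ.1 (hJ hτ) (hJ ⟨le_rfl, h12⟩) fun t ht t' ht' k => by
    have m : t ∈ Icc s1 s2 := ⟨ht.1, ht.2.trans hτ.2⟩
    have := hcc.min_le_of_mem_Icc (hJ m) (hJ hτ) ⟨k, ht'.2⟩
    rwa [min_eq_left (hmax m)] at this
  have sL : ρ.real (frontier Ω) ≤
      ρ.real (frontier Ω ∩ {p | τ < p.2}) + ρ.real (frontier Ω ∩ {p | p.2 < τ}) := by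
    have z : ρ {(lo Ω τ, τ), (hi Ω τ, τ)} = 0 := measure_union_null (hρ.single _) (hρ.single _)
    refine le_trans ?_ (measureReal_union_le _ _)
    refine ENNReal.toReal_mono (ne_top_of_le_ne_top (h.len_fin hρ) (measure_mono
      (union_subset inter_subset_left inter_subset_left))) ?_
    refine le_trans (measure_mono ?_) ((measure_union_le (frontier Ω ∩ {p | τ < p.2} ∪
      frontier Ω ∩ {p | p.2 < τ}) {(lo Ω τ, τ), (hi Ω τ, τ)}).trans
      (le_of_eq (by rw [z, add_zero])))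
    intro p hp
    rcases lt_trichotomy τ p.2 with k | k | k
    · exact Or.inl (Or.inl ⟨hp, k⟩)
    · exact Or.inr (k ▸ h.frontier_slice hp (k ▸ hJ hτ))
    · exact Or.inl (Or.inr ⟨hp, k⟩)
  have sA : volume.real (Ω ∩ {p | τ < p.2}) + volume.real (Ω ∩ {p | p.2 < τ}) ≤ volume.real Ω := by
    rw [← measureReal_inter_add_sdiff (t := {p : ℝ × ℝ | τ < p.2})
      (measurableSet_lt measurable_const measurable_snd) h.vol_fin]
    exact add_le_add le_rfl (measureReal_mono (fun p hp => ⟨hp.1, fun k => lt_asymm hp.2.out k.out⟩)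
      (ne_top_of_le_ne_top h.vol_fin (measure_mono sdiff_subset)))
  have b1 : volume.real (Ω ∩ {p | p.2 < s1}) ≤ volume.real (Ω ∩ {p | p.2 < τ}) :=
    measureReal_mono (fun p hp => ⟨hp.1, lt_of_lt_of_le hp.2 hτ.1⟩)
      (ne_top_of_le_ne_top h.vol_fin (measure_mono inter_subset_left))
  have b2 : volume.real (Ω ∩ {p | s2 < p.2}) ≤ volume.real (Ω ∩ {p | τ < p.2}) :=
    measureReal_mono (fun p hp => ⟨hp.1, lt_of_le_of_lt hτ.2 hp.2⟩)
      (ne_top_of_le_ne_top h.vol_fin (measure_mono inter_subset_left))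
  have A0 : 0 ≤ volume.real Ω := measureReal_nonneg
  have L0 : 0 ≤ ρ.real (frontier Ω) := measureReal_nonneg
  have c1 := (mul_le_mul_of_nonneg_right d A0).trans_lt (by
    rw [mul_assoc]; exact mul_lt_mul_of_pos_left k1 (a1.trans_le b1))
  have c2 := (mul_le_mul_of_nonneg_right u A0).trans_lt (by
    rw [mul_assoc]; exact mul_lt_mul_of_pos_left k2 (a2.trans_le b2))
  have f1 : ρ.real (frontier Ω ∩ {p | p.2 < τ}) * volume.real Ω <
      volume.real (Ω ∩ {p | p.2 < τ}) * ρ.real (frontier Ω) :=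
    lt_of_mul_lt_mul_left (by linarith) a1.le
  have f2 : ρ.real (frontier Ω ∩ {p | τ < p.2}) * volume.real Ω <
      volume.real (Ω ∩ {p | τ < p.2}) * ρ.real (frontier Ω) :=
    lt_of_mul_lt_mul_left (by linarith) a2.le
  nlinarith [mul_le_mul_of_nonneg_right sL A0, mul_le_mul_of_nonneg_right sA L0]

theorem Dom.cross (h : Dom Ω) (hρ : IsLen ρ) {c d : ℝ} (u : c ^ 2 + d ^ 2 = 1) {s1 s2 : ℝ}
    (h12 : s1 ≤ s2)
    (k1 : ρ.real (frontier Ω ∩ {p | c * p.1 + d * p.2 < s1}) * volume.real Ω <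
      volume.real (Ω ∩ {p | c * p.1 + d * p.2 < s1}) * ρ.real (frontier Ω))
    (k2 : ρ.real (frontier Ω ∩ {p | s2 < c * p.1 + d * p.2}) * volume.real Ω <
      volume.real (Ω ∩ {p | s2 < c * p.1 + d * p.2}) * ρ.real (frontier Ω)) : False := by
  have e1 : volume.real (Pas.rf c d ⁻¹' Ω) = volume.real Ω := by
    rw [Measure.real, vol_rf u]; rfl
  have e2 : (ρ.map (Pas.rf c d)).real (frontier (Pas.rf c d ⁻¹' Ω)) = ρ.real (frontier Ω) := by
    rw [Measure.real, map_rf u, frontier_rf u, pre_pre u]; rfl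
  refine (h.rf u).cross0 (hρ.rf u) h12 ?_ ?_
  · rwa [len_rf u (fun y => y < s1), area_rf u (fun y => y < s1), e1, e2]
  · rwa [len_rf u (fun y => s2 < y), area_rf u (fun y => s2 < y), e1, e2]

end Pool.Agent.Pas
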