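import Pool.Agent.MP_a32717_an.PasPlate

/-! A symmetric domain in every dimension at least three with constant larger than one. -/

set_option autoImplicit false

namespace Pool.Agent.Pas

open MeasureTheory Set Metric Topology

variable {k : ℕ}

/-- The roof function. -/
noncomputable def roof (t : ℝ) (x : EuclideanSpace ℝ (Fin (k + 2))) : ℝ :=
  t * min (t * (1 - |x 1|)) (1 - ‖x‖)

theorem coord_sq (x : EuclideanSpace ℝ (Fin (k + 2))) : x 0 ^ 2 + x 1 ^ 2 ≤ ‖x‖ ^ 2 := by
  rw [EuclideanSpace.real_norm_sq_eq, Fin.sum_univ_succ, Fin.sum_univ_succ]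
  have : 0 ≤ ∑ i : Fin k, x i.succ.succ ^ 2 := Finset.sum_nonneg fun _ _ => sq_nonneg _
  have e : x (Fin.succ 0) = x 1 := rfl
  rw [e]; linarith

theorem coord_le (x : EuclideanSpace ℝ (Fin (k + 2))) (i : Fin (k + 2)) : |x i| ≤ ‖x‖ :=
  PiLp.norm_apply_le x i

theorem roof_lip {t : NNReal} (t1 : (t : ℝ) ≤ 1) : LipschitzWith t (roof (k := k) t) :=
  LipschitzWith.of_dist_le_mul fun x y => by
    have t0 := t.coe_nonneg
    rw [Real.dist_eq, roof, roof, ← mul_sub, abs_mul, abs_of_nonneg t0]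
    refine mul_le_mul_of_nonneg_left ((abs_min_sub_min_le_max _ _ _ _).trans (max_le ?_ ?_)) t0
    · rw [← mul_sub, abs_mul, abs_of_nonneg t0, sub_sub_sub_cancel_left]
      have k1 : |(|y 1| - |x 1|)| ≤ dist x y := (abs_abs_sub_abs_le_abs_sub _ _).trans (by
        rw [dist_comm, dist_eq_norm]; exact coord_le (y - x) 1)
      nlinarith [abs_nonneg (|y 1| - |x 1|)]
    · rw [sub_sub_sub_cancel_left, dist_comm, dist_eq_norm]; exact abs_norm_sub_norm_le _ _

theorem abs_cv (i : Fin (k + 2)) :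
    ConvexOn ℝ univ fun x : EuclideanSpace ℝ (Fin (k + 2)) => |x i| :=
  ⟨convex_univ, fun x _ y _ a b ha hb _ => by
    simp only [PiLp.add_apply, PiLp.smul_apply, smul_eq_mul]
    refine (abs_add_le _ _).trans (le_of_eq ?_)
    rw [abs_mul, abs_mul, abs_of_nonneg ha, abs_of_nonneg hb]⟩

theorem roof_cc {t : ℝ} (t0 : 0 ≤ t) : ConcaveOn ℝ univ (roof (k := k) t) := by
  have c1 : ConcaveOn ℝ univ fun x : EuclideanSpace ℝ (Fin (k + 2)) => (1 : ℝ) - |x 1| :=
    (concaveOn_const (1 : ℝ) convex_univ).sub (abs_cv 1)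
  have c2 : ConcaveOn ℝ univ fun x : EuclideanSpace ℝ (Fin (k + 2)) => (1 : ℝ) - ‖x‖ :=
    (concaveOn_const (1 : ℝ) convex_univ).sub convexOn_univ_norm
  have c3 := (c1.smul t0).inf c2
  exact c3.smul t0

theorem g_cv (a : ℝ) :
    ConvexOn ℝ univ fun x : EuclideanSpace ℝ (Fin (k + 2)) => max (|x 0| - a) 0 := by
  have c1 : ConvexOn ℝ univ fun x : EuclideanSpace ℝ (Fin (k + 2)) => |x 0| - a :=
    (abs_cv 0).sub (concaveOn_const a convex_univ)
  have c2 : ConvexOn ℝ univ fun _ : EuclideanSpace ℝ (Fin (k + 2)) => (0 : ℝ) :=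
    convexOn_const 0 convex_univ
  exact c1.sup c2

theorem roof_nn {t : ℝ} (t0 : 0 < t) {x : EuclideanSpace ℝ (Fin (k + 2))} (h : 0 ≤ roof t x) :
    x ∈ closedBall 0 1 := by
  have := (le_min_iff.1 (nonneg_of_mul_nonneg_right h t0)).2
  rw [mem_closedBall_zero_iff]; linarith

theorem roof_pos {t : ℝ} (t0 : 0 < t) {x : EuclideanSpace ℝ (Fin (k + 2))} :
    0 < roof t x ↔ x ∈ ball 0 1 := by
  rw [mem_ball_zero_iff, roof, mul_pos_iff_of_pos_left t0, lt_min_iff, sub_pos]
  exact ⟨And.right, fun h => ⟨mul_pos t0 (by linarith [coord_le x 1]), h⟩⟩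

theorem plate_cv {t : ℝ} (t0 : 0 ≤ t) : Convex ℝ (plate (roof (k := k) t)) :=
  fun p hp q hq a b ha hb hab => by
    have c := (roof_cc (k := k) t0).2 (mem_univ (pr p)) (mem_univ (pr q)) ha hb hab
    have c1 : |(a • p + b • q) 0| ≤ a * |p 0| + b * |q 0| :=
      (abs_cv (k := k + 1) 0).2 (mem_univ p) (mem_univ q) ha hb hab
    have c2 : a * |p 0| + b * |q 0| < a * roof t (pr p) + b * roof t (pr q) := by
      rcases ha.eq_or_lt with rfl | ha
      · rw [zero_add] at hab; subst hab; simpa using hq.out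
      · exact add_lt_add_of_lt_of_le (mul_lt_mul_of_pos_left hp ha)
          (mul_le_mul_of_nonneg_left (le_of_lt hq) hb)
    exact (c1.trans_lt c2).trans_le c

theorem plate_bd {t : ℝ} (t0 : 0 < t) (t1 : t ≤ 1) :
    Bornology.IsBounded (plate (roof (k := k) t)) := by
  refine (isBounded_closedBall (x := 0) (r := 2)).subset fun p hp => ?_
  have h1 : |p 0| < roof t (pr p) := hp
  have h2 := mem_ball_zero_iff.1 ((roof_pos t0).1 ((abs_nonneg _).trans_lt h1))
  have h3 : roof t (pr p) ≤ 1 := mul_le_one₀ t1 (nonneg_of_mul_nonneg_right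
    ((abs_nonneg _).trans h1.le) t0) ((min_le_right _ _).trans (by linarith [norm_nonneg (pr p)]))
  have h4 := dist_sq p 0
  have h5 : pr (0 : EuclideanSpace ℝ (Fin (k + 2 + 1))) = 0 := rfl
  rw [h5, dist_zero_right, dist_zero_right, PiLp.zero_apply, sub_zero, ← sq_abs (p 0)] at h4
  rw [mem_closedBall_zero_iff]
  nlinarith [norm_nonneg p, norm_nonneg (pr p), abs_nonneg (p 0)]

theorem example3 (k : ℕ) : ∃ (Ω : Set (EuclideanSpace ℝ (Fin (k + 2 + 1))))
    (f : EuclideanSpace ℝ (Fin (k + 2 + 1)) → ℝ), IsOpen Ω ∧ Convex ℝ Ω ∧ Bornology.IsBounded Ω ∧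
      Ω.Nonempty ∧ (∀ x ∈ Ω, -x ∈ Ω) ∧ Continuous f ∧ ConvexOn ℝ univ f ∧ (∀ x, 0 ≤ f x) ∧
      ⨍ x in frontier Ω, f x ∂μH[((k + 2 : ℕ) : ℝ)] < ⨍ x in Ω, f x := by
  set B : Set (EuclideanSpace ℝ (Fin (k + 2))) := ball 0 1 with hB
  set U : Set (EuclideanSpace ℝ (Fin (k + 2))) := {x | 1 / 2 < |x 1|} with hU
  have oU : IsOpen U := isOpen_lt continuous_const (by fun_prop)
  have fB : volume B ≠ ⊤ := measure_ball_lt_top.ne
  have v0 : 0 < volume.real B := ENNReal.toReal_pos (measure_ball_pos _ _ one_pos).ne' fB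
  have w0 : 0 < volume.real (B ∩ U) := ENNReal.toReal_pos ((isOpen_ball.inter oU).measure_pos _
    ⟨EuclideanSpace.single 1 (3 / 4), by simp; norm_num [abs_of_pos],
      by simp [hU, abs_of_pos]; norm_num⟩).ne'
    (ne_top_of_le_ne_top fB (measure_mono inter_subset_left))
  have sp' := measureReal_inter_add_sdiff (μ := volume) (s := B) oU.measurableSet fB
  have r0 : 0 ≤ volume.real (B \ U) := measureReal_nonneg
  set v := volume.real B
  set w := volume.real (B ∩ U)
  obtain ⟨b, b0, b1, b2⟩ : ∃ b : ℝ, 0 < b ∧ b < 1 ∧ v - w / 2 < (1 - b) * v :=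
    ⟨w / (4 * v), by positivity, (div_lt_one (by positivity)).2 (by linarith), by
      rw [sub_mul, show w / (4 * v) * v = w / 4 by field_simp]; linarith⟩
  obtain ⟨a, a0, a2⟩ : ∃ a : ℝ, 0 ≤ a ∧ a ^ 2 = 1 - b ^ 2 :=
    ⟨_, Real.sqrt_nonneg _, Real.sq_sqrt (by nlinarith)⟩
  have a1 : a < 1 := by nlinarith
  set g : EuclideanSpace ℝ (Fin (k + 2)) → ℝ := fun x => max (|x 0| - a) 0 with hg
  have cg : Continuous g := by fun_prop
  have g0 : ∀ x, 0 ≤ g x := fun x => le_max_right _ _
  have ig : ∀ r : ℝ, IntegrableOn g (closedBall 0 r) volume := fun r =>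
    cg.continuousOn.integrableOn_compact (isCompact_closedBall _ _)
  set I := ∫ x in closedBall 0 1, g x with hI
  have I0 : 0 < I := by
    rw [hI, setIntegral_pos_iff_support_of_nonneg_ae (Filter.Eventually.of_forall g0) (ig 1)]
    refine lt_of_lt_of_le ((cg.isOpen_support.inter isOpen_ball).measure_pos _
      ⟨EuclideanSpace.single 0 ((1 + a) / 2), ?_, ?_⟩)
      (measure_mono (inter_subset_inter_right _ ball_subset_closedBall))
    · refine ne_of_gt (lt_max_of_lt_left ?_)
      rw [PiLp.single_apply, if_pos rfl, abs_of_pos (by linarith)]; linarith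
    · rw [mem_ball_zero_iff, PiLp.norm_single, Real.norm_eq_abs,
        abs_of_pos (by linarith)]; linarith
  have vw : 0 < v - w / 2 := by linarith
  have ev : ∀ᶠ t in 𝓝 (0 : ℝ), (1 + t) ^ (k + 2) * I / v <
      (1 - b) * (I - (v - (1 - t) ^ (k + 2) * v)) / (v - w / 2) :=
    ContinuousAt.eventually_lt (by fun_prop) (by fun_prop) (by
      simp only [add_zero, sub_zero, one_pow, one_mul, sub_self]
      rw [div_lt_div_iff₀ v0 vw]; nlinarith [mul_lt_mul_of_pos_left b2 I0])
  obtain ⟨t', ⟨h1, t1⟩, t0⟩ := ((ev.and (eventually_lt_nhds one_pos)).filter_mono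
    (nhdsWithin_le_nhds (s := Ioi 0))).and self_mem_nhdsWithin |>.exists
  lift t' to NNReal using le_of_lt t0 with t
  have hl := roof_lip (k := k) t1.le
  have op := plate_open hl.continuous
  have bd := plate_bd (k := k) t0 t1.le
  have cf : Continuous fun p : EuclideanSpace ℝ (Fin (k + 2 + 1)) => g (pr p) :=
    cg.comp pr_lip.continuous
  have ne : (plate (roof (k := k) t)).Nonempty := ⟨gr 0 0, by
    simpa [plate] using (roof_pos (k := k) t0).2 (mem_ball_self one_pos)⟩
  refine ⟨plate (roof t), fun p => g (pr p), op, plate_cv t0.le, bd, ne, fun p hp => ?_, cf,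
    ⟨convex_univ, fun p _ q _ a' b' ha hb hab => (g_cv a).2 (mem_univ (pr p)) (mem_univ (pr q))
        ha hb hab⟩, fun p => g0 _, ?_⟩
  · simpa [plate, pr_neg, roof] using hp
  have fD : ∀ r : ℝ, volume (closedBall (0 : EuclideanSpace ℝ (Fin (k + 2))) r) ≠ ⊤ := fun r =>
    measure_closedBall_lt_top.ne
  have vD : ∀ r : ℝ, 0 ≤ r → volume.real (closedBall (0 : EuclideanSpace ℝ (Fin (k + 2))) r) =
      r ^ (k + 2) * v := fun r hr => by
    rw [Measure.real, Measure.addHaar_closedBall _ _ hr, finrank_euclideanSpace_fin,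
      ENNReal.toReal_mul, ENNReal.toReal_ofReal (by positivity)]; rfl
  have sub : closedBall (0 : EuclideanSpace ℝ (Fin (k + 2))) (1 - t) ⊆ closedBall 0 1 :=
    closedBall_subset_closedBall (by linarith)
  have J : I - (v - (1 - t) ^ (k + 2) * v) ≤ ∫ x in closedBall 0 (1 - (t : ℝ)), g x := by
    have e := setIntegral_sdiff (μ := volume) (f := g) measurableSet_closedBall (ig 1) sub
    have k1 : ∫ x in closedBall 0 1 \ closedBall 0 (1 - (t : ℝ)), g x ≤
        ∫ _ in closedBall (0 : EuclideanSpace ℝ (Fin (k + 2))) 1 \ closedBall 0 (1 - (t : ℝ)),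
          (1 : ℝ) :=
      setIntegral_mono_on ((ig 1).mono_set sdiff_subset) (integrableOn_const
        (ne_top_of_le_ne_top (fD 1) (measure_mono sdiff_subset)))
        (measurableSet_closedBall.diff measurableSet_closedBall) fun x hx =>
          max_le (by linarith [coord_le x 0, mem_closedBall_zero_iff.1 hx.1]) zero_le_one
    rw [setIntegral_const, smul_eq_mul, mul_one, measureReal_sdiff sub measurableSet_closedBall
      (fD 1), vD 1 zero_le_one, vD _ (sub_pos.2 t1).le, one_pow, one_mul] at k1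
    linarith
  have fΩ : volume (plate (roof (k := k) t)) ≠ ⊤ := bd.measure_lt_top.ne
  have low : 2 * (t * (t * (1 - b))) * ∫ x in closedBall 0 (1 - (t : ℝ)), g x ≤
      ∫ p in plate (roof t), g (pr p) := by
    rw [setIntegral_eq_of_subset_of_forall_sdiff_eq_zero (s := closedBall 0 (1 - (t : ℝ)) ∩
      {x | a < |x 0|}) measurableSet_closedBall inter_subset_left (fun x hx =>
        max_eq_right (sub_nonpos.2 (not_lt.1 fun o => hx.2 ⟨hx.1, o⟩))),
      ← int_box (mul_pos t0 (mul_pos t0 (sub_pos.2 b1))).le]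
    refine setIntegral_mono_set (cf.continuousOn.integrableOn_of_subset_isCompact
      bd.isCompact_closure op.measurableSet subset_closure fΩ)
      (Filter.Eventually.of_forall fun p => g0 _) (LE.le.eventuallyLE fun p hp => ?_)
    have c1 := mem_closedBall_zero_iff.1 hp.2.1
    have c2 : a < |pr p 0| := hp.2.2
    have c3 := coord_sq (pr p)
    have c4 : |pr p 1| ≤ b := abs_le_of_sq_le_sq (by
      nlinarith [sq_abs (pr p 0), norm_nonneg (pr p)]) b0.le
    exact hp.1.trans_le (mul_le_mul_of_nonneg_left (le_min (mul_le_mul_of_nonneg_left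
      (by linarith) t0.le) (by nlinarith)) t0.le)
  have tt : 0 < (t : ℝ) * t := mul_pos t0 t0
  have up : volume.real (plate (roof (k := k) t)) ≤ 2 * (t * t) * (v - w / 2) := by
    refine ENNReal.toReal_le_of_le_ofReal (by positivity) ?_
    refine le_trans (measure_mono (t := {p | |p 0| < (t : ℝ) * t ∧ pr p ∈ B \ U} ∪
      {p | |p 0| < (t : ℝ) * t / 2 ∧ pr p ∈ B ∩ U}) fun p hp => ?_) ((measure_union_le _ _).trans ?_)
    · have c1 : |p 0| < roof t (pr p) := hp
      have c2 := (roof_pos t0).1 ((abs_nonneg _).trans_lt c1)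
      have c3 := c1.trans_le (mul_le_mul_of_nonneg_left (min_le_left _ _) t0.le)
      by_cases o : pr p ∈ U
      · exact Or.inr ⟨by nlinarith [o.out], c2, o⟩
      · exact Or.inl ⟨by nlinarith [abs_nonneg (pr p 1)], c2, o⟩
    · rw [vol_box, vol_box, ← ofReal_measureReal (ne_top_of_le_ne_top fB
        (measure_mono sdiff_subset)), ← ofReal_measureReal (s := B ∩ U) (ne_top_of_le_ne_top fB
        (measure_mono inter_subset_left)), ← ENNReal.ofReal_mul (by positivity),
        ← ENNReal.ofReal_mul (by positivity), ← ENNReal.ofReal_add (by positivity) (by positivity)]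
      refine ENNReal.ofReal_le_ofReal (le_of_eq ?_)
      rw [← sp']; ring
  have Ω0 : 0 < volume.real (plate (roof (k := k) t)) :=
    ENNReal.toReal_pos (op.measure_pos _ ne).ne' fΩ
  obtain ⟨c, hc⟩ : ∃ c : NNReal, (μH[((k + 2 : ℕ) : ℝ)] :
      Measure (EuclideanSpace ℝ (Fin (k + 2)))) = c • volume :=
    ⟨_, Measure.isAddLeftInvariant_eq_smul _ _⟩
  have c0 : 0 < (c : ℝ) := by
    have := measure_ball_pos (μH[((k + 2 : ℕ) : ℝ)]) (0 : EuclideanSpace ℝ (Fin (k + 2))) one_pos
    rw [hc] at this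
    exact NNReal.coe_pos.2 (pos_iff_ne_zero.2 fun o => by simp [o] at this)
  have s1 := plate_int hl (isCompact_closedBall 0 1) (fun x => roof_nn t0) cg g0
  have s2 := ENNReal.toReal_mono (plate_fin hl (isCompact_closedBall 0 1) fun x => roof_nn t0)
    (plate_low (B := B) hl.continuous fun x => (roof_pos t0).2)
  rw [hc, Measure.restrict_smul, integral_smul_nnreal_measure, NNReal.smul_def, smul_eq_mul] at s1
  rw [hc, Measure.smul_apply, ← two_mul, ENNReal.smul_def, smul_eq_mul, ENNReal.toReal_mul,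
    ENNReal.toReal_mul, ENNReal.toReal_ofNat, ENNReal.coe_toReal] at s2
  have s3 : 2 * (c * v) ≤ (μH[((k + 2 : ℕ) : ℝ)] : Measure _).real
    (frontier (plate (roof (k := k) t))) := s2
  have J0 : 0 ≤ ∫ x in closedBall 0 (1 - (t : ℝ)), g x := integral_nonneg g0
  rw [setAverage_eq, setAverage_eq, smul_eq_mul, smul_eq_mul, inv_mul_eq_div, inv_mul_eq_div]
  calc _ ≤ 2 * (1 + t) ^ (k + 2) * (c * I) / (2 * (c * v)) :=
        div_le_div₀ (by positivity) s1 (by positivity) s3
    _ = (1 + t) ^ (k + 2) * I / v := by field_simp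
    _ < _ := h1
    _ ≤ (1 - b) * (∫ x in closedBall 0 (1 - (t : ℝ)), g x) / (v - w / 2) :=
        div_le_div_of_nonneg_right (mul_le_mul_of_nonneg_left J (sub_pos.2 b1).le) vw.le
    _ = (2 * (t * (t * (1 - b))) * ∫ x in closedBall 0 (1 - (t : ℝ)), g x) /
          (2 * (t * t) * (v - w / 2)) := by field_simp
    _ ≤ _ := div_le_div₀ (integral_nonneg fun p => g0 _) low Ω0 up

end Pool.Agent.Pas
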