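import Pool.Agent.MP_a32717_an.PasBase

/-! Crease points of a maximum of finitely many affine functions on the boundary. -/

set_option autoImplicit false

namespace Pool.Agent.Pas

open Set

variable {Ω : Set (ℝ × ℝ)}

/-- An affine function given by three coefficients. -/
def ev (A : ℝ × ℝ × ℝ) (p : ℝ × ℝ) : ℝ := A.1 * p.1 + A.2.1 * p.2 + A.2.2

/-- Twice the signed area of a triangle. -/
def DD (a b p : ℝ × ℝ) : ℝ := (b.1 - a.1) * (p.2 - a.2) - (b.2 - a.2) * (p.1 - a.1)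

theorem ev_cont (A : ℝ × ℝ × ℝ) : Continuous (ev A) := by unfold ev; fun_prop

theorem ev_line (A : ℝ × ℝ × ℝ) (u v : ℝ × ℝ) (θ : ℝ) :
    ev A (u + θ • (v - u)) = (1 - θ) * ev A u + θ * ev A v := by
  simp only [ev, Prod.fst_add, Prod.snd_add, Prod.smul_fst, Prod.smul_snd, Prod.fst_sub,
    Prod.snd_sub, smul_eq_mul]; ring

theorem ev_sub (A B : ℝ × ℝ × ℝ) (p : ℝ × ℝ) : ev (A - B) p = ev A p - ev B p := by
  simp only [ev, Prod.fst_sub, Prod.snd_sub]; ring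

theorem bary (A : ℝ × ℝ × ℝ) (a b q p : ℝ × ℝ) :
    DD a b q * ev A p = -DD q b p * ev A a + -DD a q p * ev A b + DD a b p * ev A q := by
  simp only [ev, DD]; ring

theorem line_eq (u v : ℝ × ℝ) (θ : ℝ) : u + θ • (v - u) = (1 - θ) • u + θ • v := by
  rw [smul_sub, sub_smul, one_smul]; abel

theorem Dom.supp (h : Dom Ω) {q : ℝ × ℝ} (hq : q ∈ frontier Ω) :
    ∃ A : ℝ × ℝ × ℝ, ev A q = 0 ∧ (∀ p ∈ Ω, 0 < ev A p) ∧ ∀ p ∈ closure Ω, 0 ≤ ev A p := by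
  obtain ⟨c, d, h1, h2⟩ := h.support (h.mem_frontier.1 hq).2
  exact ⟨(c, d, -(c * q.1 + d * q.2)), by simp [ev], fun p hp => by
    have := h1 p hp; simp only [ev]; linarith, fun p hp => by
    have := h2 p hp; simp only [ev]; linarith⟩

theorem Dom.tri1 (h : Dom Ω) {a b q r p : ℝ × ℝ} {e : ℝ} (ha : a ∈ frontier Ω)
    (hb : b ∈ closure Ω) (hq : q ∈ closure Ω) (hr : r ∈ closure Ω) (hp : p ∈ closure Ω)
    (h1 : 0 < e * DD a b q) (h2 : e * DD a b r < 0) (h3 : 0 < e * DD a q p) : 0 < e * DD a b p := by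
  obtain ⟨A, a0, a1, a2⟩ := h.supp ha
  obtain ⟨z, hz⟩ := h.ne
  by_contra hn
  rw [not_lt] at hn
  have k1 := bary A a b q p
  have k2 := bary A a b q r
  have k3 := bary A a b q z
  have b0 : ev A b = 0 := by
    refine le_antisymm (le_of_mul_le_mul_left ?_ h3) (a2 b hb)
    have c1 := mul_nonneg h1.le (a2 p hp)
    have c2 := mul_nonneg (neg_nonneg.2 hn) (a2 q hq)
    have c3 : e * (DD a b q * ev A p) = e * _ := congrArg _ k1
    rw [a0] at c3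
    linarith
  have q0 : ev A q = 0 := by
    refine le_antisymm (le_of_mul_le_mul_left ?_ (neg_pos.2 h2)) (a2 q hq)
    have c1 := mul_nonneg h1.le (a2 r hr)
    have c3 : e * (DD a b q * ev A r) = e * _ := congrArg _ k2
    rw [a0, b0] at c3
    linarith
  have c1 := mul_pos h1 (a1 z hz)
  have c3 : e * (DD a b q * ev A z) = e * _ := congrArg _ k3
  rw [a0, b0, q0] at c3
  linarith

theorem Dom.ray (h : Dom Ω) {z w : ℝ × ℝ} (hz : z ∈ Ω) (hw : w ≠ 0) :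
    ∃ t : ℝ, 0 < t ∧ z + t • w ∈ frontier Ω := by
  obtain ⟨R, hR⟩ := (Metric.isBounded_iff_subset_ball z).1 h.bd
  have w0 : 0 < ‖w‖ := norm_pos_iff.2 hw
  have R0 : 0 < R := by simpa using hR hz
  have hq : z + (R / ‖w‖) • w ∉ Ω := fun k => by
    have := hR k
    rw [Metric.mem_ball, dist_eq_norm, add_sub_cancel_left, norm_smul, Real.norm_eq_abs,
      abs_of_pos (div_pos R0 w0), div_mul_cancel₀ _ w0.ne'] at this
    exact this.false
  obtain ⟨l, l0, _, hl⟩ := exit_frontier h.op hz hq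
  rw [add_sub_cancel_left, smul_smul] at hl
  exact ⟨_, mul_pos l0 (div_pos R0 w0), hl⟩

theorem Dom.ray_uniq (h : Dom Ω) {z : ℝ × ℝ} (hz : z ∈ Ω) (w : ℝ × ℝ) :
    {t : ℝ | 0 < t ∧ z + t • w ∈ frontier Ω}.Subsingleton := by
  have key : ∀ t t' : ℝ, 0 < t → t < t' → z + t • w ∈ frontier Ω → z + t' • w ∈ frontier Ω →
      False := fun t t' t0 k h1 h2 => by
    have t1 : 0 < t' := t0.trans k
    have := h.combo hz (frontier_subset_closure h2) (sub_pos.2 ((div_lt_one t1).2 k))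
      (div_pos t0 t1).le (by ring)
    rw [← line_eq, add_sub_cancel_left, smul_smul, div_mul_cancel₀ _ t1.ne'] at this
    exact (h.mem_frontier.1 h1).2 this
  intro t ht t' ht'
  rcases lt_trichotomy t t' with k | k | k
  · exact (key t t' ht.1 k ht.2 ht'.2).elim
  · exact k
  · exact (key t' t ht'.1 k ht'.2 ht.2).elim

theorem zero_between {T : Set (ℝ × ℝ)} (hT : Convex ℝ T) {D : ℝ × ℝ × ℝ} {u v : ℝ × ℝ}
    (hu : u ∈ T) (hv : v ∈ T) (h1 : 0 < ev D u) (h2 : ev D v < 0) :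
    (∃ z ∈ T, ev D z = 0) ∧ ((-D.2.1, D.1) : ℝ × ℝ) ≠ 0 := by
  have d0 : 0 < ev D u - ev D v := by linarith
  refine ⟨⟨u + (ev D u / (ev D u - ev D v)) • (v - u), ?_, ?_⟩, fun k => ?_⟩
  · rw [line_eq]
    exact hT hu hv (sub_nonneg.2 ((div_le_one d0).2 (by linarith))) (div_pos h1 d0).le (by ring)
  · rw [ev_line]; field_simp; ring
  · rw [Prod.mk_eq_zero, neg_eq_zero] at k
    simp only [ev, k.1, k.2] at d0
    linarith

/-- The crease points on the boundary. -/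
def QQ (Ω : Set (ℝ × ℝ)) (S : Finset (ℝ × ℝ × ℝ)) : Set (ℝ × ℝ) :=
  {y | y ∈ frontier Ω ∧ ∃ A ∈ S, ∃ A' ∈ S, ev (A - A') y = 0 ∧
    (∃ u ∈ Ω, 0 < ev (A - A') u) ∧ ∃ v ∈ Ω, ev (A - A') v < 0}

theorem Dom.line_fin (h : Dom Ω) (D : ℝ × ℝ × ℝ) : {y | y ∈ frontier Ω ∧ ev D y = 0 ∧
    (∃ u ∈ Ω, 0 < ev D u) ∧ ∃ v ∈ Ω, ev D v < 0}.Finite := by
  by_cases k : (∃ u ∈ Ω, 0 < ev D u) ∧ ∃ v ∈ Ω, ev D v < 0
  swap
  · exact finite_empty.subset fun y hy => k hy.2.2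
  obtain ⟨⟨u, hu, h1⟩, v, hv, h2⟩ := k
  obtain ⟨⟨z, hz, z0⟩, hw⟩ := zero_between h.cv hu hv h1 h2
  set w : ℝ × ℝ := (-D.2.1, D.1) with hw'
  have n0 : 0 < D.1 ^ 2 + D.2.1 ^ 2 := by
    by_contra hn
    exact hw (Prod.ext (by simp only [hw', Prod.fst_zero]; nlinarith)
      (by simp only [hw', Prod.snd_zero]; nlinarith))
  refine (((h.ray_uniq hz w).finite.image fun t => z + t • w).union
    ((h.ray_uniq hz (-w)).finite.image fun t => z + t • -w)).subset fun y hy => ?_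
  obtain ⟨t, ht⟩ : ∃ t : ℝ, y = z + t • w := by
    have y0 := hy.2.1
    simp only [ev] at y0 z0
    refine ⟨(D.1 * (y.2 - z.2) - D.2.1 * (y.1 - z.1)) / (D.1 ^ 2 + D.2.1 ^ 2), Prod.ext ?_ ?_⟩
    · simp only [hw', Prod.fst_add, Prod.smul_fst, smul_eq_mul]
      field_simp
      linear_combination D.1 * y0 - D.1 * z0
    · simp only [hw', Prod.snd_add, Prod.smul_snd, smul_eq_mul]
      field_simp
      linear_combination D.2.1 * y0 - D.2.1 * z0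
  rcases lt_trichotomy 0 t with k | k | k
  · exact Or.inl ⟨t, ⟨k, ht ▸ hy.1⟩, ht.symm⟩
  · rw [← k, zero_smul, add_zero] at ht
    exact absurd (ht ▸ hz) (h.mem_frontier.1 hy.1).2
  · have e : y = z + (-t) • -w := by rw [smul_neg, neg_smul, neg_neg, ht]
    exact Or.inr ⟨-t, ⟨neg_pos.2 k, e ▸ hy.1⟩, e.symm⟩

theorem Dom.QQ_fin (h : Dom Ω) (S : Finset (ℝ × ℝ × ℝ)) : (QQ Ω S).Finite := by
  refine (S.finite_toSet.biUnion fun A _ => S.finite_toSet.biUnion fun A' _ =>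
    h.line_fin (A - A')).subset ?_
  rintro y ⟨h1, A, hA, A', hA', h2⟩
  exact mem_biUnion hA (mem_biUnion hA' ⟨h1, h2⟩)

/-- `f` is the maximum of the affine functions in `S`. -/
def IsMx (S : Finset (ℝ × ℝ × ℝ)) (f : ℝ × ℝ → ℝ) : Prop :=
  ∀ p, (∀ A ∈ S, ev A p ≤ f p) ∧ ∃ A ∈ S, ev A p = f p

variable {S : Finset (ℝ × ℝ × ℝ)} {f : ℝ × ℝ → ℝ}

theorem IsMx.aff (hf : IsMx S f) (T : Set (ℝ × ℝ))
    (hT : ∀ A ∈ S, ∀ A' ∈ S, ∀ u ∈ T, ∀ v ∈ T, 0 < ev (A - A') u → ev (A - A') v < 0 → False) :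
    ∃ A ∈ S, ∀ p ∈ T, f p = ev A p := by
  have key : ∀ S' : Finset (ℝ × ℝ × ℝ), S'.Nonempty → S' ⊆ S →
      ∃ A ∈ S, ∀ A' ∈ S', ∀ p ∈ T, ev A' p ≤ ev A p := by
    intro S' hS'
    induction hS' using Finset.Nonempty.cons_induction with
    | singleton a => exact fun k => ⟨a, k (by simp), by simp⟩
    | cons a s _ _ ih =>
      intro k
      obtain ⟨A, hA, h1⟩ := ih ((Finset.subset_cons _).trans k)
      have ha : a ∈ S := k (Finset.mem_cons_self _ _)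
      by_cases c : ∀ p ∈ T, ev a p ≤ ev A p
      · exact ⟨A, hA, fun A' hA' => (Finset.mem_cons.1 hA').elim (fun e => e ▸ c) (h1 A')⟩
      · push Not at c
        obtain ⟨u, hu, c⟩ := c
        refine ⟨a, ha, fun A' hA' p hp => (Finset.mem_cons.1 hA').elim (fun e => e ▸ le_rfl)
          fun m => (h1 A' m p hp).trans (not_lt.1 fun c' => ?_)⟩
        exact hT a ha A hA u hu p hp (by rw [ev_sub]; linarith) (by rw [ev_sub]; linarith)
  obtain ⟨A0, h0, _⟩ := (hf 0).2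
  obtain ⟨A, hA, h1⟩ := key S ⟨A0, h0⟩ (Finset.Subset.refl _)
  refine ⟨A, hA, fun p hp => le_antisymm ?_ ((hf p).1 A hA)⟩
  obtain ⟨A', hA', e⟩ := (hf p).2
  exact e ▸ h1 A' hA' p hp

theorem near_pos {T : Set (ℝ × ℝ)} {D : ℝ × ℝ × ℝ} {u : ℝ × ℝ} (hu : u ∈ closure T)
    (h : 0 < ev D u) : ∃ u' ∈ T, 0 < ev D u' := by
  obtain ⟨x, h1, h2⟩ := mem_closure_iff.1 hu _ (isOpen_lt continuous_const (ev_cont D)) h
  exact ⟨x, h2, h1⟩

theorem near_neg {T : Set (ℝ × ℝ)} {D : ℝ × ℝ × ℝ} {u : ℝ × ℝ} (hu : u ∈ closure T)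
    (h : ev D u < 0) : ∃ u' ∈ T, ev D u' < 0 := by
  obtain ⟨x, h1, h2⟩ := mem_closure_iff.1 hu _ (isOpen_lt (ev_cont D) continuous_const) h
  exact ⟨x, h2, h1⟩

/-- A cap without crease points carries an affine piece. -/
theorem Dom.capaff (h : Dom Ω) (hf : IsMx S f) (Λ : ℝ × ℝ × ℝ)
    (hQ : ∀ y ∈ QQ Ω S, ¬ 0 < ev Λ y) :
    ∃ A ∈ S, ∀ p ∈ closure (Ω ∩ {p | 0 < ev Λ p}), f p = ev A p := by
  refine hf.aff _ fun A hA A' hA' u hu v hv h1 h2 => ?_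
  obtain ⟨u', hu', k1⟩ := near_pos hu h1
  obtain ⟨v', hv', k2⟩ := near_neg hv h2
  have hc : Convex ℝ (Ω ∩ {p | 0 < ev Λ p}) := h.cv.inter fun x hx y hy a b ha hb hab => by
    have e : a = 1 - b := by linarith
    subst e
    rw [mem_ofPred_eq, ← line_eq, ev_line]
    rcases hb.eq_or_lt with rfl | hb
    · simpa using hx
    · exact add_pos_of_nonneg_of_pos (mul_nonneg ha (le_of_lt hx)) (mul_pos hb hy)
  obtain ⟨⟨z, hz, z0⟩, hw⟩ := zero_between hc hu' hv' k1 k2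
  set D := A - A' with hD
  have fin : ∀ (e : ℝ), e ≠ 0 → 0 ≤ e * (Λ.1 * -D.2.1 + Λ.2.1 * D.1) → False := fun e e0 he => by
    obtain ⟨t, t0, ht⟩ := h.ray hz.1 (smul_ne_zero e0 hw)
    refine hQ _ ⟨ht, A, hA, A', hA', ?_, ⟨u', hu'.1, k1⟩, v', hv'.1, k2⟩ ?_
    · rw [← hD, ← z0]
      simp only [ev, Prod.fst_add, Prod.snd_add, Prod.smul_fst, Prod.smul_snd, smul_eq_mul]; ring
    · have c1 := mul_nonneg t0.le he
      have c2 : 0 < ev Λ z := hz.2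
      simp only [ev, Prod.fst_add, Prod.snd_add, Prod.smul_fst, Prod.smul_snd, smul_eq_mul] at c2 ⊢
      linarith
  rcases le_total 0 (Λ.1 * -D.2.1 + Λ.2.1 * D.1) with k | k
  · exact fin 1 one_ne_zero (by linarith)
  · exact fin (-1) (by norm_num) (by linarith)

/-- On a boundary segment the values at crease points decide the sign. -/
theorem Dom.seg (h : Dom Ω) (hf : IsMx S f) (B : ℝ × ℝ × ℝ) {u v : ℝ × ℝ} (huv : u ≠ v)
    (hu : u ∈ closure Ω) (hv : v ∈ closure Ω) {θ : ℝ} (θ0 : 0 ≤ θ) (θ1 : θ ≤ 1)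
    (hp : u + θ • (v - u) ∈ frontier Ω) (gu : ev B u ≤ f u) (gv : ev B v ≤ f v)
    (gQ : ∀ t : ℝ, 0 < t → u + t • (v - u) ∈ QQ Ω S → ev B (u + t • (v - u)) ≤ f (u + t • (v - u))) :
    ev B (u + θ • (v - u)) ≤ f (u + θ • (v - u)) := by
  rcases θ0.eq_or_lt with rfl | θ0'
  · simpa using gu
  rcases θ1.eq_or_lt with rfl | θ1'
  · simpa using gv
  have cl : ∀ t : ℝ, 0 ≤ t → t ≤ 1 → u + t • (v - u) ∈ closure Ω := fun t t0 t1 => by
    rw [line_eq]; exact h.cv.closure hu hv (sub_nonneg.2 t1) t0 (by ring)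
  have fr : ∀ t : ℝ, 0 ≤ t → t ≤ 1 → u + t • (v - u) ∈ frontier Ω := fun t t0 t1 => by
    obtain ⟨A, a0, a1, a2⟩ := h.supp hp
    rw [ev_line] at a0
    have c1 := mul_nonneg (sub_pos.2 θ1').le (a2 u hu)
    have c2 := mul_nonneg θ0 (a2 v hv)
    have u0 : ev A u = 0 := (mul_eq_zero.1 (by linarith : (1 - θ) * ev A u = 0)).resolve_left
      (sub_pos.2 θ1').ne'
    have v0 : ev A v = 0 := (mul_eq_zero.1 (by linarith : θ * ev A v = 0)).resolve_left θ0'.ne'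
    refine h.mem_frontier.2 ⟨cl t t0 t1, fun k => ?_⟩
    have := a1 _ k
    rw [ev_line, u0, v0] at this
    simp at this
  set Θ : Set ℝ := {t | t = 0 ∨ t = 1 ∨ (0 < t ∧ u + t • (v - u) ∈ QQ Ω S)} with hΘ
  have fin : Θ.Finite := by
    have inj : Function.Injective fun t : ℝ => u + t • (v - u) := fun t t' e =>
      smul_left_injective ℝ (sub_ne_zero.2 huv.symm) (add_left_cancel e)
    exact ((((h.QQ_fin S).preimage inj.injOn).insert 1).insert 0).subset fun t ht =>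
      ht.imp id (Or.imp id And.right)
  have val : ∀ t ∈ Θ, ev B (u + t • (v - u)) ≤ f (u + t • (v - u)) := by
    rintro t (rfl | rfl | k)
    · simpa using gu
    · simpa using gv
    · exact gQ t k.1 k.2
  obtain ⟨t1, ⟨m1, l1⟩, x1⟩ := exists_max_image (Θ ∩ Iic θ) id (fin.inter_of_left _)
    ⟨0, Or.inl rfl, θ0⟩
  obtain ⟨t2, ⟨m2, l2⟩, x2⟩ := exists_min_image (Θ ∩ Ici θ) id (fin.inter_of_left _)
    ⟨1, Or.inr (Or.inl rfl), θ1⟩
  have p1 : 0 ≤ t1 := x1 0 ⟨Or.inl rfl, θ0⟩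
  have p2 : t2 ≤ 1 := x2 1 ⟨Or.inr (Or.inl rfl), θ1⟩
  rw [mem_Iic] at l1
  rw [mem_Ici] at l2
  obtain ⟨A, _, hA⟩ := hf.aff ((fun t : ℝ => u + t • (v - u)) '' Icc t1 t2) (by
    rintro A hA A' hA' _ ⟨s, hs, rfl⟩ _ ⟨s', hs', rfl⟩ k1 k2
    obtain ⟨t, ht, t0⟩ : ∃ t ∈ Ioo t1 t2, ev (A - A') (u + t • (v - u)) = 0 := by
      have c : Continuous fun t : ℝ => ev (A - A') (u + t • (v - u)) :=
        (ev_cont _).comp (by fun_prop)
      rcases le_total s s' with o | o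
      · obtain ⟨t, ht, e⟩ := intermediate_value_Ioo' o c.continuousOn ⟨k2, k1⟩
        exact ⟨t, ⟨hs.1.trans_lt ht.1, ht.2.trans_le hs'.2⟩, e⟩
      · obtain ⟨t, ht, e⟩ := intermediate_value_Ioo o c.continuousOn ⟨k2, k1⟩
        exact ⟨t, ⟨hs'.1.trans_lt ht.1, ht.2.trans_le hs.2⟩, e⟩
    have m : t ∈ Θ := Or.inr (Or.inr ⟨p1.trans_lt ht.1, fr t (p1.trans ht.1.le) (ht.2.le.trans p2),
      A, hA, A', hA', t0, near_pos (cl s (p1.trans hs.1) (hs.2.trans p2)) k1,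
      near_neg (cl s' (p1.trans hs'.1) (hs'.2.trans p2)) k2⟩)
    rcases le_total t θ with o | o
    · exact ht.1.not_ge (x1 t ⟨m, o⟩)
    · exact ht.2.not_ge (x2 t ⟨m, o⟩))
  have v1 := val t1 m1
  have v2 := val t2 m2
  rw [hA _ ⟨t1, ⟨le_rfl, l1.trans l2⟩, rfl⟩] at v1
  rw [hA _ ⟨t2, ⟨l1.trans l2, le_rfl⟩, rfl⟩] at v2
  rw [hA _ ⟨θ, ⟨l1, l2⟩, rfl⟩]
  simp only [ev_line] at v1 v2 ⊢
  rcases le_total (ev A u - ev B u) (ev A v - ev B v) with o | o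
  · nlinarith [mul_nonneg (sub_nonneg.2 l1) (sub_nonneg.2 o)]
  · nlinarith [mul_nonneg (sub_nonneg.2 l2) (sub_nonneg.2 o)]

end Pool.Agent.Pas
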