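import Mathlib

/-! Symmetric domains have both centroids at the origin. -/

set_option autoImplicit false

namespace Pool.Agent.Pas

open MeasureTheory Set

theorem avg_zero {E : Type*} [NormedAddCommGroup E] [NormedSpace ℝ E] [MeasurableSpace E]
    [BorelSpace E] (μ : Measure E) (hμ : MeasurePreserving (fun x : E => -x) μ μ) {S : Set E}
    (hS : (fun x : E => -x) ⁻¹' S = S) : ⨍ x in S, x ∂μ = 0 := by
  have k := hμ.setIntegral_preimage_emb (MeasurableEquiv.neg E).measurableEmbedding
    (fun x => x) S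
  rw [hS, integral_neg] at k
  have z : ∫ x in S, x ∂μ = 0 := by
    have h2 : (2 : ℝ) • ∫ x in S, x ∂μ = 0 := by
      rw [two_smul]; nth_rewrite 1 [← k]; exact neg_add_cancel _
    exact (smul_eq_zero.1 h2).resolve_left two_ne_zero
  rw [setAverage_eq, z, smul_zero]

theorem cen_sym {n : ℕ} (d : ℝ) {Ω : Set (EuclideanSpace ℝ (Fin n))} (h : ∀ x ∈ Ω, -x ∈ Ω) :
    ⨍ x in Ω, x = ⨍ x in frontier Ω, x ∂μH[d] := by
  have e : (fun x : EuclideanSpace ℝ (Fin n) => -x) ⁻¹' Ω = Ω := by
    ext x
    exact ⟨fun k => neg_neg x ▸ h _ k, h x⟩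
  rw [avg_zero volume (Measure.measurePreserving_neg _) e, avg_zero μH[d]
    ((LinearIsometryEquiv.neg ℝ (E := EuclideanSpace ℝ (Fin n))).toIsometryEquiv
      |>.measurePreserving_hausdorffMeasure d)]
  exact ((Homeomorph.neg _).preimage_frontier Ω).trans (congrArg frontier e)

end Pool.Agent.Pas
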