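import Mathlib
import Pool.Agent.MP_a32717_an.PasPlane
import Pool.Agent.MP_a32717_an.PasEx
import Pool.Agent.MP_a32717_an.PasSym

set_option autoImplicit false

namespace Pool.Agent.PasHeld

open MeasureTheory Set

/-- The Hermite-Hadamard inequality with constant `1` holds for all convex domains whose centroid
equals the centroid of the boundary exactly in dimension two. -/
theorem result (n : ℕ) (hn : 2 ≤ n) :
    (∀ Ω : Set (EuclideanSpace ℝ (Fin n)), IsOpen Ω → Convex ℝ Ω → Bornology.IsBounded Ω →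
      Ω.Nonempty → ⨍ x in Ω, x = ⨍ x in frontier Ω, x ∂μH[(n : ℝ) - 1] →
      ∀ f : EuclideanSpace ℝ (Fin n) → ℝ, ContinuousOn f (closure Ω) → ConvexOn ℝ Ω f →
        (∀ x ∈ closure Ω, 0 ≤ f x) →
        ⨍ x in Ω, f x ≤ ⨍ x in frontier Ω, f x ∂μH[(n : ℝ) - 1]) ↔ n = 2 := by
  constructor
  · intro h
    by_contra h2
    obtain ⟨k, rfl⟩ : ∃ k, n = k + 2 + 1 := ⟨n - 3, by omega⟩
    obtain ⟨Ω, f, o, c, b, ne, s, cf, vf, f0, lt⟩ := Pool.Agent.Pas.example3 k
    have e : ((k + 2 + 1 : ℕ) : ℝ) - 1 = ((k + 2 : ℕ) : ℝ) := by push_cast; ring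
    rw [e] at h
    exact lt.not_ge (h Ω o c b ne (Pool.Agent.Pas.cen_sym _ s) f cf.continuousOn
      (vf.subset (subset_univ _) c) fun x _ => f0 x)
  · rintro rfl Ω o c b ne
    have e : ((2 : ℕ) : ℝ) - 1 = 1 := by norm_num
    rw [e]
    exact fun hg f hf hv _ => Pool.Agent.Pas.plane Ω o c b ne hg f hf hv

end Pool.Agent.PasHeld
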