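import Mathlib

/-! Thin plates over the unit ball: volume and surface estimates. -/

set_option autoImplicit false

namespace Pool.Agent.Pas

open MeasureTheory Set Metric

variable {m : ℕ}

/-- Drop the first coordinate. -/
noncomputable def pr (p : EuclideanSpace ℝ (Fin (m + 1))) : EuclideanSpace ℝ (Fin m) :=
  WithLp.toLp 2 fun i => p i.succ

/-- Add a first coordinate. -/
noncomputable def gr (t : ℝ) (x : EuclideanSpace ℝ (Fin m)) : EuclideanSpace ℝ (Fin (m + 1)) :=
  WithLp.toLp 2 (Fin.cons t x.ofLp)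

@[simp] theorem gr_zero (t : ℝ) (x : EuclideanSpace ℝ (Fin m)) : gr t x 0 = t := rfl

@[simp] theorem pr_gr (t : ℝ) (x : EuclideanSpace ℝ (Fin m)) : pr (gr t x) = x := rfl

theorem gr_pr (p : EuclideanSpace ℝ (Fin (m + 1))) : gr (p 0) (pr p) = p := by
  ext i
  refine Fin.cases rfl (fun _ => rfl) i

theorem dist_sq (p q : EuclideanSpace ℝ (Fin (m + 1))) :
    dist p q ^ 2 = (p 0 - q 0) ^ 2 + dist (pr p) (pr q) ^ 2 := by
  rw [EuclideanSpace.dist_sq_eq, EuclideanSpace.dist_sq_eq, Fin.sum_univ_succ, Real.dist_eq, sq_abs]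
  rfl

theorem pr_lip : LipschitzWith 1 (pr (m := m)) := LipschitzWith.mk_one fun p q =>
  abs_le_of_sq_le_sq' (by rw [dist_sq]; linarith [sq_nonneg (p 0 - q 0)]) dist_nonneg |>.2

theorem pr_lin (p q : EuclideanSpace ℝ (Fin (m + 1))) (a b : ℝ) :
    pr (a • p + b • q) = a • pr p + b • pr q := rfl

theorem pr_neg (p : EuclideanSpace ℝ (Fin (m + 1))) : pr (-p) = -pr p := rfl

/-- Splitting off the first coordinate. -/
noncomputable def sp (m : ℕ) : EuclideanSpace ℝ (Fin (m + 1)) ≃ᵐ ℝ × EuclideanSpace ℝ (Fin m) :=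
  (MeasurableEquiv.toLp 2 (Fin (m + 1) → ℝ)).symm.trans
    ((MeasurableEquiv.piFinSuccAbove (fun _ => ℝ) 0).trans
      ((MeasurableEquiv.refl ℝ).prodCongr (MeasurableEquiv.toLp 2 (Fin m → ℝ))))

theorem sp_apply (p : EuclideanSpace ℝ (Fin (m + 1))) : sp m p = (p 0, pr p) := rfl

theorem sp_mp : MeasurePreserving (sp m) volume (volume.prod volume) :=
  (((MeasurePreserving.id volume).prod (PiLp.volume_preserving_toLp (Fin m))).comp
    (volume_preserving_piFinSuccAbove (fun _ => ℝ) 0)).comp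
    (PiLp.volume_preserving_ofLp (Fin (m + 1)))

theorem vol_box (c : ℝ) (T : Set (EuclideanSpace ℝ (Fin m))) :
    volume {p : EuclideanSpace ℝ (Fin (m + 1)) | |p 0| < c ∧ pr p ∈ T} =
      ENNReal.ofReal (2 * c) * volume T := by
  have e : {p : EuclideanSpace ℝ (Fin (m + 1)) | |p 0| < c ∧ pr p ∈ T} =
      sp m ⁻¹' (Ioo (-c) c ×ˢ T) := by
    ext p; simp only [mem_ofPred_eq, mem_preimage, sp_apply, mem_prod, mem_Ioo, abs_lt]
  rw [e, sp_mp.measure_preimage_equiv, Measure.prod_prod, Real.volume_Ioo]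
  congr 2; ring

theorem int_box {c : ℝ} (hc : 0 ≤ c) (T : Set (EuclideanSpace ℝ (Fin m)))
    (g : EuclideanSpace ℝ (Fin m) → ℝ) :
    ∫ p in {p : EuclideanSpace ℝ (Fin (m + 1)) | |p 0| < c ∧ pr p ∈ T}, g (pr p) =
      2 * c * ∫ x in T, g x := by
  have e : {p : EuclideanSpace ℝ (Fin (m + 1)) | |p 0| < c ∧ pr p ∈ T} =
      sp m ⁻¹' (Ioo (-c) c ×ˢ T) := by
    ext p; simp only [mem_ofPred_eq, mem_preimage, sp_apply, mem_prod, mem_Ioo, abs_lt]
  have k := sp_mp.setIntegral_preimage_emb (sp m).measurableEmbedding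
    (fun q => (1 : ℝ) * g q.2) (Ioo (-c) c ×ˢ T)
  rw [setIntegral_prod_mul (fun _ : ℝ => (1 : ℝ)) g, setIntegral_const, smul_eq_mul, mul_one,
    Real.volume_real_Ioo_of_le (by linarith)] at k
  simp only [one_mul, sp_apply] at k
  rw [e, k]; ring

/-- The plate with roof `H`. -/
def plate (H : EuclideanSpace ℝ (Fin m) → ℝ) : Set (EuclideanSpace ℝ (Fin (m + 1))) :=
  {p | |p 0| < H (pr p)}

variable {H : EuclideanSpace ℝ (Fin m) → ℝ} {ε : NNReal}

theorem graph_lip (hH : LipschitzWith ε H) : LipschitzWith (1 + ε) fun x => gr (H x) x :=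
  LipschitzWith.of_dist_le_mul fun x y => by
    have k := hH.dist_le_mul x y
    rw [Real.dist_eq] at k
    have k2 := sq_le_sq' (neg_le_of_abs_le k) (le_of_abs_le k)
    have d0 : 0 ≤ dist x y := dist_nonneg
    refine (abs_le_of_sq_le_sq' ?_ (by positivity)).2
    rw [dist_sq, gr_zero, gr_zero, pr_gr, pr_gr, NNReal.coe_add, NNReal.coe_one]
    nlinarith [mul_nonneg ε.coe_nonneg (sq_nonneg (dist x y))]

theorem graph_le (hH : LipschitzWith ε H) (B : Set (EuclideanSpace ℝ (Fin m))) :
    (μH[m] : Measure (EuclideanSpace ℝ (Fin (m + 1)))).restrict ((fun x => gr (H x) x) '' B) ≤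
      ((1 + ε) ^ m : NNReal) • ((μH[m] : Measure _).restrict B).map fun x => gr (H x) x := by
  refine Measure.le_iff.2 fun S hS => ?_
  have c := (graph_lip hH).continuous.measurable
  rw [Measure.restrict_apply hS, Measure.smul_apply, Measure.map_apply c hS,
    Measure.restrict_apply (c hS), ← image_preimage_inter]
  refine ((graph_lip hH).hausdorffMeasure_image_le m.cast_nonneg _).trans (le_of_eq ?_)
  rw [ENNReal.rpow_natCast, ENNReal.smul_def, smul_eq_mul, ENNReal.coe_pow]

theorem plate_open (hH : Continuous H) : IsOpen (plate H) :=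
  isOpen_lt (by fun_prop) (hH.comp pr_lip.continuous)

theorem plate_fr (hH : LipschitzWith ε H) {B : Set (EuclideanSpace ℝ (Fin m))}
    (hB : ∀ x, 0 ≤ H x → x ∈ B) :
    (μH[m] : Measure (EuclideanSpace ℝ (Fin (m + 1)))).restrict (frontier (plate H)) ≤
      ((1 + ε) ^ m : NNReal) • (((μH[m] : Measure _).restrict B).map fun x => gr (H x) x) +
      ((1 + ε) ^ m : NNReal) • ((μH[m] : Measure _).restrict B).map fun x => gr (-H x) x := by
  refine le_trans (Measure.restrict_mono (fun p hp => ?_) le_rfl)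
    ((Measure.restrict_union_le _ _).trans (add_le_add (graph_le hH B) (graph_le hH.neg B)))
  have k : |p 0| = H (pr p) := frontier_lt_subset_eq (by fun_prop)
    (hH.continuous.comp pr_lip.continuous) hp
  have b := hB _ (k ▸ abs_nonneg _)
  rcases abs_choice (p 0) with e | e
  · exact Or.inl ⟨pr p, b, by simp only [← k, e, gr_pr]⟩
  · exact Or.inr ⟨pr p, b, by simp only [Pi.neg_apply, ← k, e, neg_neg, gr_pr]⟩

theorem plate_int (hH : LipschitzWith ε H) {B : Set (EuclideanSpace ℝ (Fin m))} (cB : IsCompact B)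
    (hB : ∀ x, 0 ≤ H x → x ∈ B) {g : EuclideanSpace ℝ (Fin m) → ℝ} (hg : Continuous g)
    (g0 : ∀ x, 0 ≤ g x) : ∫ p in frontier (plate H), g (pr p) ∂μH[m] ≤
      2 * (1 + ε) ^ m * ∫ x in B, g x ∂μH[m] := by
  have c1 := (graph_lip hH).continuous.measurable.aemeasurable (μ := (μH[m] : Measure _).restrict B)
  have c2 := (graph_lip hH.neg).continuous.measurable.aemeasurable
    (μ := (μH[m] : Measure _).restrict B)
  have cg : Continuous fun p : EuclideanSpace ℝ (Fin (m + 1)) => g (pr p) :=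
    hg.comp pr_lip.continuous
  have i0 : IntegrableOn g B μH[m] := hg.continuousOn.integrableOn_compact cB
  have i1 := ((integrable_map_measure cg.aestronglyMeasurable c1).2 i0).smul_measure_nnreal
    (c := (1 + ε) ^ m)
  have i2 := ((integrable_map_measure cg.aestronglyMeasurable c2).2 i0).smul_measure_nnreal
    (c := (1 + ε) ^ m)
  refine (integral_mono_measure (plate_fr hH hB) (Filter.Eventually.of_forall fun p => g0 _)
    (i1.add_measure i2)).trans (le_of_eq ?_)
  refine (integral_add_measure i1 i2).trans ?_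
  rw [integral_smul_nnreal_measure, integral_smul_nnreal_measure,
    integral_map c1 cg.aestronglyMeasurable, integral_map c2 cg.aestronglyMeasurable]
  simp only [pr_gr, NNReal.smul_def, smul_eq_mul, NNReal.coe_pow, NNReal.coe_add, NNReal.coe_one]
  ring

theorem plate_fin (hH : LipschitzWith ε H) {B : Set (EuclideanSpace ℝ (Fin m))} (cB : IsCompact B)
    (hB : ∀ x, 0 ≤ H x → x ∈ B) :
    (μH[m] : Measure (EuclideanSpace ℝ (Fin (m + 1)))) (frontier (plate H)) ≠ ⊤ := by
  have k := Measure.le_iff'.1 (plate_fr hH hB) univ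
  have f : (μH[m] : Measure (EuclideanSpace ℝ (Fin m))) B ≠ ⊤ := cB.measure_lt_top.ne
  rw [Measure.restrict_apply_univ, Measure.add_apply, Measure.smul_apply, Measure.smul_apply,
    Measure.map_apply (graph_lip hH).continuous.measurable MeasurableSet.univ,
    Measure.map_apply (f := fun x => gr (-H x) x) (graph_lip hH.neg).continuous.measurable
      MeasurableSet.univ,
    preimage_univ, preimage_univ, Measure.restrict_apply_univ] at k
  exact ne_top_of_le_ne_top (ENNReal.add_ne_top.2 ⟨ENNReal.mul_ne_top ENNReal.coe_ne_top f,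
    ENNReal.mul_ne_top ENNReal.coe_ne_top f⟩) k

theorem plate_low (hH : Continuous H) {B : Set (EuclideanSpace ℝ (Fin m))} (hB : ∀ x ∈ B, 0 < H x) :
    (μH[m] : Measure _) B + (μH[m] : Measure _) B ≤
      (μH[m] : Measure (EuclideanSpace ℝ (Fin (m + 1)))) (frontier (plate H)) := by
  have fr : ∀ x ∈ B, ∀ t : ℝ, |t| = H x → gr t x ∈ frontier (plate H) := fun x hx t ht => by
    rw [(plate_open hH).frontier_eq]
    refine ⟨map_mem_closure (f := fun s => gr s x) (s := Ioo (-H x) (H x)) ?_ ?_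
      fun s hs => abs_lt.2 hs, fun k => (lt_of_eq_of_lt ht.symm k).false⟩
    · exact (PiLp.continuous_toLp 2 _).comp (continuous_pi fun i =>
        Fin.cases continuous_id (fun _ => continuous_const) i)
    · rw [closure_Ioo (by linarith [hB x hx])]
      exact abs_le.1 ht.le
  have le : ∀ S : Set (EuclideanSpace ℝ (Fin (m + 1))), B ⊆ pr '' S →
      (μH[m] : Measure _) B ≤ (μH[m] : Measure _) S := fun S hS => by
    have k := pr_lip.hausdorffMeasure_image_le m.cast_nonneg S
    rw [ENNReal.coe_one, ENNReal.one_rpow, one_mul] at k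
    exact (measure_mono hS).trans k
  rw [← measure_inter_add_sdiff (frontier (plate H)) (t := {p | 0 < p 0})
    (isOpen_lt continuous_const (by fun_prop)).measurableSet]
  refine add_le_add (le _ fun x hx => ⟨gr (H x) x, ⟨fr x hx _ (abs_of_pos (hB x hx)), hB x hx⟩, rfl⟩)
    (le _ fun x hx => ⟨gr (-H x) x, ⟨fr x hx _ (by rw [abs_neg, abs_of_pos (hB x hx)]),
      fun k => ?_⟩, rfl⟩)
  have : 0 < -H x := k
  linarith [hB x hx]

end Pool.Agent.Pas
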