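import Pool.Agent.MP_a32717_an.PasBase

/-! Horizontal slices of a planar convex domain and the length of two graphs. -/

set_option autoImplicit false

namespace Pool.Agent.Pas

open MeasureTheory Set

variable {Ω : Set (ℝ × ℝ)} {ρ : Measure (ℝ × ℝ)}

/-- Chord length of a graph over the vertical axis. -/
noncomputable def ch (a : ℝ → ℝ) (t t' : ℝ) : ℝ := √((a t' - a t) ^ 2 + (t' - t) ^ 2)

theorem ch_eq (a : ℝ → ℝ) (t t' : ℝ) :
    ch a t t' = dist (⟨a t', t'⟩ : ℂ) (⟨a t, t⟩ : ℂ) := by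
  rw [Complex.dist_eq_re_im]; rfl

theorem ch_nonneg (a : ℝ → ℝ) (t t' : ℝ) : 0 ≤ ch a t t' := Real.sqrt_nonneg _

theorem ch_tri (a : ℝ → ℝ) (r s t : ℝ) : ch a r t ≤ ch a r s + ch a s t := by
  simp only [ch_eq]
  rw [add_comm]; exact dist_triangle _ _ _

theorem IsLen.graph (hρ : IsLen ρ) (a V : ℝ → ℝ) {s1 s2 : ℝ} (h12 : s1 ≤ s2)
    (h : ∀ t ∈ Icc s1 s2, ∀ t' ∈ Icc s1 s2, t ≤ t' → ch a t t' ≤ V t' - V t) :
    ρ ((fun t => (a t, t)) '' Icc s1 s2) ≤ ENNReal.ofReal (V s2 - V s1) := by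
  refine (hρ.up _ (fun p => V p.2) ?_).trans ?_
  · rintro _ ⟨t, ht, rfl⟩ _ ⟨t', ht', rfl⟩
    rcases le_total t t' with k | k
    · have h1 := h t ht t' ht' k
      have h2 : ch a t t' ^ 2 = (a t' - a t) ^ 2 + (t' - t) ^ 2 := Real.sq_sqrt (by positivity)
      have h3 := ch_nonneg a t t'
      simp only
      nlinarith
    · have h1 := h t' ht' t ht k
      have h2 : ch a t' t ^ 2 = (a t - a t') ^ 2 + (t - t') ^ 2 := Real.sq_sqrt (by positivity)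
      have h3 := ch_nonneg a t' t
      simp only
      nlinarith
  · rw [← Real.volume_Icc]
    refine measure_mono ?_
    rintro _ ⟨_, ⟨t, ht, rfl⟩, rfl⟩
    have h1 := h s1 ⟨le_rfl, h12⟩ t ht ht.1
    have h2 := h t ht s2 ⟨h12, le_rfl⟩ ht.2
    have h3 := ch_nonneg a s1 t
    have h4 := ch_nonneg a t s2
    exact ⟨by simp only; linarith, by simp only; linarith⟩

/-- Two graphs whose chord lengths add up to at most `M` times the height. -/
theorem IsLen.two (hρ : IsLen ρ) (a b : ℝ → ℝ) {s1 s2 M : ℝ} (h12 : s1 ≤ s2)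
    (h : ∀ t ∈ Icc s1 s2, ∀ t' ∈ Icc s1 s2, t ≤ t' → ch a t t' + ch b t t' ≤ M * (t' - t)) :
    ρ ((fun t => (a t, t)) '' Icc s1 s2) + ρ ((fun t => (b t, t)) '' Icc s1 s2) ≤
      ENNReal.ofReal (M * (s2 - s1)) := by
  set γ : ℝ → ℂ := fun t => ⟨a t, t⟩ with hγ
  have key : ∀ t ∈ Icc s1 s2, ∀ t' ∈ Icc s1 s2, t ≤ t' →
      eVariationOn γ (Icc s1 s2 ∩ Icc t t') ≤ ENNReal.ofReal (M * (t' - t) - ch b t t') := by
    intro t ht t' ht' htt
    rw [eVariationOn]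
    refine iSup_le ?_
    rintro ⟨n, u, hu, hus⟩
    have h1 : ∀ n : ℕ, ∑ i ∈ Finset.range n, ch a (u i) (u (i + 1)) + ch b (u 0) (u n) ≤
        M * (u n - u 0) := by
      intro n
      induction n with
      | zero => simp [ch]
      | succ n ih =>
        rw [Finset.sum_range_succ]
        have k1 := h (u n) (hus n).1 (u (n + 1)) (hus (n + 1)).1 (hu n.le_succ)
        have k2 := ch_tri b (u 0) (u n) (u (n + 1))
        linarith
    have h2 := h t ht (u 0) (hus 0).1 (hus 0).2.1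
    have h3 := h (u n) (hus n).1 t' ht' (hus n).2.2
    have h4 := ch_tri b t (u 0) t'
    have h5 := ch_tri b (u 0) (u n) t'
    have h6 := ch_nonneg a t (u 0)
    have h7 := ch_nonneg a (u n) t'
    have e : ∑ i ∈ Finset.range n, edist (γ (u (i + 1))) (γ (u i)) =
        ENNReal.ofReal (∑ i ∈ Finset.range n, ch a (u i) (u (i + 1))) := by
      rw [ENNReal.ofReal_sum_of_nonneg fun i _ => ch_nonneg _ _ _]
      exact Finset.sum_congr rfl fun i _ => by rw [edist_dist, ch_eq]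
    simp only
    rw [e]
    exact ENNReal.ofReal_le_ofReal (by linarith [h1 n])
  have hl : LocallyBoundedVariationOn γ (Icc s1 s2) := fun t t' ht ht' => by
    rcases le_total t t' with k | k
    · exact ne_top_of_le_ne_top ENNReal.ofReal_ne_top (key t ht t' ht' k)
    · exact BoundedVariationOn.of_subsingleton fun x hx y hy => by
        linarith [hx.2.1, hx.2.2, hy.2.1, hy.2.2]
  have hs1 : s1 ∈ Icc s1 s2 := ⟨le_rfl, h12⟩
  have hs2 : s2 ∈ Icc s1 s2 := ⟨h12, le_rfl⟩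
  set V : ℝ → ℝ := variationOnFromTo γ (Icc s1 s2) s1 with hV
  have hd : ∀ t ∈ Icc s1 s2, ∀ t' ∈ Icc s1 s2, t ≤ t' →
      V t' - V t = (eVariationOn γ (Icc s1 s2 ∩ Icc t t')).toReal := fun t ht t' ht' k => by
    rw [hV, variationOnFromTo.sub_right hl hs1 ht' ht, variationOnFromTo.eq_of_le _ _ k]
  have ha : ∀ t ∈ Icc s1 s2, ∀ t' ∈ Icc s1 s2, t ≤ t' → ch a t t' ≤ V t' - V t :=
    fun t ht t' ht' k => by
      rw [hd t ht t' ht' k, ch_eq]
      exact (hl t t' ht ht').dist_le ⟨ht', k, le_rfl⟩ ⟨ht, le_rfl, k⟩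
  have hb : ∀ t ∈ Icc s1 s2, ∀ t' ∈ Icc s1 s2, t ≤ t' →
      ch b t t' ≤ (M * t' - V t') - (M * t - V t) := fun t ht t' ht' k => by
    have k1 := ENNReal.toReal_le_of_le_ofReal
      (by linarith [h t ht t' ht' k, ch_nonneg a t t']) (key t ht t' ht' k)
    rw [← hd t ht t' ht' k] at k1
    linarith
  refine (add_le_add (hρ.graph a V h12 ha) (hρ.graph b (fun t => M * t - V t) h12 hb)).trans ?_
  rw [← ENNReal.ofReal_add (by linarith [ha s1 hs1 s2 hs2 h12, ch_nonneg a s1 s2])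
    (by linarith [hb s1 hs1 s2 hs2 h12, ch_nonneg b s1 s2])]
  exact ENNReal.ofReal_le_ofReal (by linarith)

/-- Left end of the slice at height `t`. -/
noncomputable def lo (Ω : Set (ℝ × ℝ)) (t : ℝ) : ℝ := sInf {x | (x, t) ∈ Ω}

/-- Right end of the slice at height `t`. -/
noncomputable def hi (Ω : Set (ℝ × ℝ)) (t : ℝ) : ℝ := sSup {x | (x, t) ∈ Ω}

/-- Heights with a nonempty slice. -/
def hts (Ω : Set (ℝ × ℝ)) : Set ℝ := {t | ∃ x, (x, t) ∈ Ω}

theorem Dom.sl_bdd (h : Dom Ω) (t : ℝ) :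
    BddBelow {x | (x, t) ∈ Ω} ∧ BddAbove {x | (x, t) ∈ Ω} := by
  have : Bornology.IsBounded {x | (x, t) ∈ Ω} :=
    h.bd.image_fst.subset fun x hx => ⟨(x, t), hx, rfl⟩
  exact ⟨this.bddBelow, this.bddAbove⟩

theorem Dom.lo_cl (h : Dom Ω) {t : ℝ} (ht : t ∈ hts Ω) : (lo Ω t, t) ∈ closure Ω :=
  (by fun_prop : Continuous fun x : ℝ => (x, t)).closure_preimage_subset Ω
    (csInf_mem_closure ht (h.sl_bdd t).1)

theorem Dom.hi_cl (h : Dom Ω) {t : ℝ} (ht : t ∈ hts Ω) : (hi Ω t, t) ∈ closure Ω :=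
  (by fun_prop : Continuous fun x : ℝ => (x, t)).closure_preimage_subset Ω
    (csSup_mem_closure ht (h.sl_bdd t).2)

theorem Dom.lt_of_mem (h : Dom Ω) {x t : ℝ} (hx : (x, t) ∈ Ω) : lo Ω t < x ∧ x < hi Ω t := by
  have ho : IsOpen {x | (x, t) ∈ Ω} := h.op.preimage (by fun_prop : Continuous fun x : ℝ => (x, t))
  obtain ⟨l, u, h1, h2⟩ := mem_nhds_iff_exists_Ioo_subset.1 (ho.mem_nhds hx)
  have k1 := csInf_le (h.sl_bdd t).1 (h2 (show (l + x) / 2 ∈ Ioo l u from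
    ⟨by linarith [h1.1], by linarith [h1.1, h1.2]⟩))
  have k2 := le_csSup (h.sl_bdd t).2 (h2 (show (x + u) / 2 ∈ Ioo l u from
    ⟨by linarith [h1.1, h1.2], by linarith [h1.2]⟩))
  exact ⟨by unfold lo; linarith [h1.1], by unfold hi; linarith [h1.2]⟩

theorem Dom.between (h : Dom Ω) {x y z t : ℝ} (hx : (x, t) ∈ Ω) (hz : (z, t) ∈ closure Ω)
    (hy : (x ≤ y ∧ y < z) ∨ (z < y ∧ y ≤ x)) : (y, t) ∈ Ω := by
  have h0 : z - x ≠ 0 := by rcases hy with k | k <;> intro h0 <;> linarith [k.1, k.2]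
  have h1 : 0 < (z - y) / (z - x) := by
    rcases hy with k | k
    · exact div_pos (by linarith [k.2]) (by linarith [k.1, k.2])
    · exact div_pos_of_neg_of_neg (by linarith [k.1]) (by linarith [k.1, k.2])
  have h2 : 0 ≤ (y - x) / (z - x) := by
    rcases hy with k | k
    · exact div_nonneg (by linarith [k.1]) (by linarith [k.1, k.2])
    · exact div_nonneg_of_nonpos (by linarith [k.2]) (by linarith [k.1, k.2])
  have h3 : (z - y) / (z - x) + (y - x) / (z - x) = 1 := by field_simp; ring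
  have := h.combo hx hz h1 h2 h3
  have e : ((z - y) / (z - x)) • (x, t) + ((y - x) / (z - x)) • (z, t) = (y, t) := by
    ext
    · simp only [Prod.fst_add, Prod.smul_fst, smul_eq_mul]; field_simp; ring
    · simp only [Prod.snd_add, Prod.smul_snd, smul_eq_mul]; rw [← add_mul, h3, one_mul]
  rwa [e] at this

theorem Dom.mem_of_lt (h : Dom Ω) {x t : ℝ} (ht : t ∈ hts Ω) (h1 : lo Ω t < x) (h2 : x < hi Ω t) :
    (x, t) ∈ Ω := by
  obtain ⟨x0, h0⟩ := id ht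
  rcases le_total x0 x with k | k
  · exact h.between h0 (h.hi_cl ht) (Or.inl ⟨k, h2⟩)
  · exact h.between h0 (h.lo_cl ht) (Or.inr ⟨h1, k⟩)

theorem Dom.le_of_cl (h : Dom Ω) {x t : ℝ} (ht : t ∈ hts Ω) (hx : (x, t) ∈ closure Ω) :
    lo Ω t ≤ x ∧ x ≤ hi Ω t := by
  obtain ⟨x0, h0⟩ := ht
  have k := h.lt_of_mem h0
  constructor
  · by_contra hn
    exact (h.lt_of_mem (h.between h0 hx (Or.inr ⟨not_le.1 hn, k.1.le⟩))).1.false
  · by_contra hn
    exact (h.lt_of_mem (h.between h0 hx (Or.inl ⟨k.2.le, not_le.1 hn⟩))).2.false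

theorem Dom.lo_lt_hi (h : Dom Ω) {t : ℝ} (ht : t ∈ hts Ω) : lo Ω t < hi Ω t := by
  obtain ⟨x0, h0⟩ := ht
  exact (h.lt_of_mem h0).1.trans (h.lt_of_mem h0).2

theorem Dom.frontier_slice (h : Dom Ω) {p : ℝ × ℝ} (hp : p ∈ frontier Ω) (ht : p.2 ∈ hts Ω) :
    p = (lo Ω p.2, p.2) ∨ p = (hi Ω p.2, p.2) := by
  obtain ⟨h1, h2⟩ := h.mem_frontier.1 hp
  have k := h.le_of_cl ht (x := p.1) h1
  rcases k.1.eq_or_lt with e | e
  · exact Or.inl (Prod.ext e.symm rfl)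
  · rcases k.2.eq_or_lt with e' | e'
    · exact Or.inr (Prod.ext e' rfl)
    · exact absurd (h.mem_of_lt ht e e') h2

theorem Dom.lo_fr (h : Dom Ω) {t : ℝ} (ht : t ∈ hts Ω) : (lo Ω t, t) ∈ frontier Ω :=
  h.mem_frontier.2 ⟨h.lo_cl ht, fun k => (h.lt_of_mem k).1.false⟩

theorem Dom.hts_eq (Ω : Set (ℝ × ℝ)) : hts Ω = Prod.snd '' Ω := by
  ext t
  exact ⟨fun ⟨x, hx⟩ => ⟨_, hx, rfl⟩, fun ⟨p, hp, e⟩ => ⟨p.1, e ▸ hp⟩⟩

theorem Dom.hts_cv (h : Dom Ω) : Convex ℝ (hts Ω) := by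
  rw [Dom.hts_eq]; exact h.cv.linear_image (LinearMap.snd ℝ ℝ ℝ)

theorem Dom.hts_op (h : Dom Ω) : IsOpen (hts Ω) := by
  rw [Dom.hts_eq]; exact isOpenMap_snd _ h.op

theorem Dom.lo_cv (h : Dom Ω) : ConvexOn ℝ (hts Ω) (lo Ω) :=
  ⟨h.hts_cv, fun _ hs _ ht _ _ ha hb hab =>
    (h.le_of_cl (h.hts_cv hs ht ha hb hab)
      (h.cv.closure (h.lo_cl hs) (h.lo_cl ht) ha hb hab)).1⟩

theorem Dom.hi_cc (h : Dom Ω) : ConcaveOn ℝ (hts Ω) (hi Ω) :=
  ⟨h.hts_cv, fun _ hs _ ht _ _ ha hb hab =>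
    (h.le_of_cl (h.hts_cv hs ht ha hb hab)
      (h.cv.closure (h.hi_cl hs) (h.hi_cl ht) ha hb hab)).2⟩

theorem slope_le {J : Set ℝ} {a : ℝ → ℝ} (ha : ConvexOn ℝ J a) {t t' s y : ℝ} (ht : t ∈ J)
    (hy : y ∈ J) (h1 : t < t') (h2 : t' ≤ s) (h3 : s < y) :
    a s + (a t' - a t) / (t' - t) * (y - s) ≤ a y := by
  have hs : s ∈ J := ha.1.ordConnected.out ht hy ⟨by linarith, h3.le⟩
  have ht' : t' ∈ J := ha.1.ordConnected.out ht hy ⟨h1.le, by linarith⟩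
  have k : (a t' - a t) / (t' - t) ≤ (a y - a s) / (y - s) := by
    rcases h2.eq_or_lt with rfl | h2
    · exact ha.slope_mono_adjacent ht hy h1 h3
    · exact (ha.slope_mono_adjacent ht hs h1 h2).trans (ha.slope_mono_adjacent ht' hy h2 h3)
  rw [le_div_iff₀ (by linarith)] at k
  linarith

theorem Dom.len_pos (h : Dom Ω) (hρ : IsLen ρ) : ρ (frontier Ω) ≠ 0 := by
  obtain ⟨p, hp⟩ := h.ne
  have h1 := h.hts_op.measure_pos volume ⟨p.2, p.1, hp⟩
  refine (lt_of_lt_of_le h1 (le_trans (measure_mono fun t ht => ?_)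
    (hρ.low _ 0 1 (by norm_num)))).ne'
  exact ⟨_, h.lo_fr ht, by simp⟩

end Pool.Agent.Pas
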